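import Pool.Agent.H159R3.GGL.LogSpecial

/-!
Holomorphic maps from the complement of a set of codimension at least two in `ℂ ^ g` to a
quasi-projective variety, for instance the rational maps from semi-abelian varieties which are
defined outside a closed subset of codimension at least two, composed with the universal covering.
(The argument is the one of `Pool.Agent.Y191.Semi`, for another kind of varieties.)
-/

set_option autoImplicit false

open MvPolynomial Metric Filter Topology Set

namespace Pool.Agent.Y190.AN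

open Pool.Agent.H159R3.GGLLog

variable {N : ℕ} {ι : Type}

/-- A nonconstant meromorphic map from `ℂ ^ g` to the closure of the quasi-projective variety `X`
with the equations `F` in the complement of the coordinate hyperplanes with index in `U`, given by
entire functions `u` of `g` variables as homogeneous coordinates, which is a holomorphic map to `X`
outside a set `S` of (complex) codimension at least two: `S` is empty or its Hausdorff dimension is
less than `2 g - 2`. -/
structure CgMap (U : Set (Fin (N + 1))) (F : ι → MvPolynomial (Fin (N + 1)) ℂ) (g : ℕ)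
    (S : Set (Fin g → ℂ)) (u : (Fin g → ℂ) → Fin (N + 1) → ℂ) : Prop where
  diff : Differentiable ℂ u
  codim : S = ∅ ∨ dimH S < ((2 * (g - 1) : ℕ) : ENNReal)
  mem : ∀ z ∉ S, u z ∈ Pts U F
  nonconst : ∃ z z', z ∉ S ∧ z' ∉ S ∧ ∀ c : ℂ, u z' ≠ c • u z

/-- The Zariski closure in `X` of the union of the images of the nonconstant meromorphic maps from
the spaces `ℂ ^ g` which are holomorphic maps to `X` outside a set of codimension at least two. -/
def SpCg (U : Set (Fin (N + 1))) (F : ι → MvPolynomial (Fin (N + 1)) ℂ) :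
    Set (Fin (N + 1) → ℂ) :=
  {x | x ∈ Pts U F ∧ ∀ G : MvPolynomial (Fin (N + 1)) ℂ, (∃ d, G.IsHomogeneous d) →
    (∀ (g : ℕ) (S : Set (Fin g → ℂ)) (u : (Fin g → ℂ) → Fin (N + 1) → ℂ), CgMap U F g S u →
      ∀ z ∉ S, eval (u z) G = 0) → eval x G = 0}

/-- the direction of the line through `z0` and `s` -/
noncomputable def dirn {m : ℕ} (z0 s : Fin (m + 1) → ℂ) : Fin m → ℂ :=
  fun j => (s j.succ - z0 j.succ) / (s 0 - z0 0)

theorem dirn_dim {m : ℕ} (z0 : Fin (m + 1) → ℂ) (S : Set (Fin (m + 1) → ℂ)) :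
    dimH (dirn z0 '' (S ∩ {s | s 0 ≠ z0 0})) ≤ dimH S := by
  refine (dimH_image_le_of_locally_lipschitzOn ?_).trans (dimH_mono inter_subset_left)
  rintro s ⟨_, hs⟩
  have h1 : ContDiffAt ℂ 1 (dirn z0) s := by
    rw [contDiffAt_pi]
    intro j
    unfold dirn
    refine ContDiffAt.fun_div ?_ ?_ (sub_ne_zero.mpr hs)
    · fun_prop
    · fun_prop
  obtain ⟨C, t, ht, hC⟩ := h1.exists_lipschitzOnWith
  exact ⟨C, t, mem_nhdsWithin_of_mem_nhds ht, hC⟩

/-- the line through `z0` with direction `(1, w)` -/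
noncomputable def lineTo {m : ℕ} (z0 : Fin (m + 1) → ℂ) (w : Fin m → ℂ) (t : ℂ) : Fin (m + 1) → ℂ :=
  fun j => z0 j + t * (Fin.cons (1 : ℂ) w : Fin (m + 1) → ℂ) j

theorem lineTo_diff {m : ℕ} (z0 : Fin (m + 1) → ℂ) (w : Fin m → ℂ) :
    Differentiable ℂ (lineTo z0 w) := by
  rw [differentiable_pi]
  intro j
  unfold lineTo
  fun_prop

theorem lineTo_zero {m : ℕ} (z0 : Fin (m + 1) → ℂ) (w : Fin m → ℂ) : lineTo z0 w 0 = z0 := by
  funext j
  simp [lineTo]

theorem dirn_lineTo {m : ℕ} (z0 : Fin (m + 1) → ℂ) (w : Fin m → ℂ) {t : ℂ} (ht : t ≠ 0) :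
    dirn z0 (lineTo z0 w t) = w := by
  funext j
  simp only [dirn, lineTo, Fin.cons_succ, Fin.cons_zero, add_sub_cancel_left, mul_one]
  rw [mul_div_cancel_left₀ _ ht]

theorem lineTo_dirn {m : ℕ} (z0 s : Fin (m + 1) → ℂ) (h : s 0 ≠ z0 0) :
    lineTo z0 (dirn z0 s) (s 0 - z0 0) = s := by
  have h1 := sub_ne_zero.mpr h
  funext j
  refine Fin.cases ?_ (fun i => ?_) j
  · simp [lineTo]
  · simp only [lineTo, Fin.cons_succ, dirn]
    rw [mul_div_cancel₀ _ h1]
    ring

theorem finrank_pi_complex (m : ℕ) : Module.finrank ℝ (Fin m → ℂ) = 2 * m := by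
  rw [Module.finrank_pi_fintype]
  simp [Complex.finrank_real_complex, mul_comm]

/-- the lines through a point outside `S` which do not meet `S` are dense -/
theorem dense_dirs {m : ℕ} {S : Set (Fin (m + 1) → ℂ)} (z0 : Fin (m + 1) → ℂ)
    (hS : S = ∅ ∨ dimH S < ((2 * (m + 1 - 1) : ℕ) : ENNReal)) :
    Dense (dirn z0 '' (S ∩ {s | s 0 ≠ z0 0}))ᶜ := by
  rcases hS with hS | hS
  · rw [hS, empty_inter, image_empty, compl_empty]
    exact dense_univ
  · refine dense_compl_of_dimH_lt_finrank ((dirn_dim z0 S).trans_lt ?_)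
    rw [finrank_pi_complex]
    simpa using hS

theorem dense_compl {m : ℕ} {S : Set (Fin (m + 1) → ℂ)}
    (hS : S = ∅ ∨ dimH S < ((2 * (m + 1 - 1) : ℕ) : ENNReal)) : Dense Sᶜ := by
  rcases hS with hS | hS
  · rw [hS, compl_empty]
    exact dense_univ
  · refine dense_compl_of_dimH_lt_finrank (hS.trans_le ?_)
    rw [finrank_pi_complex]
    exact_mod_cast (by omega : 2 * (m + 1 - 1) ≤ 2 * (m + 1))

theorem dense_ne {m : ℕ} (c : ℂ) : Dense {s : Fin (m + 1) → ℂ | s 0 ≠ c} := by
  have h1 : Dense ({c}ᶜ : Set ℂ) := dense_compl_singleton c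
  have h2 : IsOpenMap fun s : Fin (m + 1) → ℂ => s 0 := isOpenMap_eval 0
  have h3 := h1.preimage h2
  exact h3

theorem exists_smul_of_rel {k : ℕ} {a b : Fin k → ℂ} (ha : a ≠ 0)
    (h : ∀ i j, b i * a j = b j * a i) : ∃ t : ℂ, b = t • a := by
  obtain ⟨j, hj⟩ := Function.ne_iff.mp ha
  refine ⟨b j / a j, funext fun i => ?_⟩
  rw [Pi.smul_apply, smul_eq_mul]
  have hj' : a j ≠ 0 := hj
  field_simp
  have := h i j
  linear_combination this

/-- A form which vanishes on the entire curves vanishes on the images of the maps from `ℂ ^ g`. -/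
theorem cg_vanish {U : Set (Fin (N + 1))} {F : ι → MvPolynomial (Fin (N + 1)) ℂ}
    {G : MvPolynomial (Fin (N + 1)) ℂ} (h : ∀ f, EntireCurve U F f → ∀ z, eval (f z) G = 0)
    {g : ℕ} {S : Set (Fin g → ℂ)} {u : (Fin g → ℂ) → Fin (N + 1) → ℂ} (hu : CgMap U F g S u)
    (z1 : Fin g → ℂ) : eval (u z1) G = 0 := by
  rcases g with _ | m
  · obtain ⟨z, z', hz, _, h1⟩ := hu.nonconst
    have hzz : z' = z := Subsingleton.elim _ _
    exact absurd (by rw [hzz, one_smul]) (h1 1)
  by_contra hz1
  have hcu : Continuous u := hu.diff.continuous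
  have hcG : Continuous fun z => eval (u z) G := (MvPolynomial.continuous_eval G).comp hcu
  obtain ⟨z0, hz0G, hz0S⟩ : ∃ z0, eval (u z0) G ≠ 0 ∧ z0 ∉ S := by
    have h1 : IsOpen {z | eval (u z) G ≠ 0} := isOpen_ne_fun hcG continuous_const
    obtain ⟨z0, h2, h3⟩ := (dense_compl hu.codim).inter_open_nonempty _ h1 ⟨z1, hz1⟩
    exact ⟨z0, h2, h3⟩
  have hu0 : u z0 ≠ 0 := (hu.mem z0 hz0S).1
  -- the map is constant on the lines through `z0` which do not meet `S`
  have hline : ∀ w ∈ (dirn z0 '' (S ∩ {s | s 0 ≠ z0 0}))ᶜ, ∀ t : ℂ,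
      ∀ i j, u (lineTo z0 w t) i * u z0 j = u (lineTo z0 w t) j * u z0 i := by
    intro w hw t
    by_contra hcon
    have hnot : ∀ t, lineTo z0 w t ∉ S := by
      intro t ht
      by_cases ht0 : t = 0
      · rw [ht0, lineTo_zero] at ht
        exact hz0S ht
      · refine hw ⟨lineTo z0 w t, ⟨ht, ?_⟩, dirn_lineTo z0 w ht0⟩
        show lineTo z0 w t 0 ≠ z0 0
        simp [lineTo, ht0]
    have hent : EntireCurve U F (fun t => u (lineTo z0 w t)) := by
      refine ⟨hu.diff.comp (lineTo_diff z0 w), fun t => hu.mem _ (hnot t), t, 0, fun c hc => ?_⟩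
      apply hcon
      intro i j
      simp only [lineTo_zero] at hc
      rw [hc, Pi.smul_apply, Pi.smul_apply, smul_eq_mul, smul_eq_mul]
      ring
    have h1 := h _ hent 0
    simp only [lineTo_zero] at h1
    exact hz0G h1
  have hcuj : ∀ i, Continuous fun z => u z i := fun i => (continuous_apply i).comp hcu
  -- hence everywhere
  have hcl : ∀ w t, ∀ i j, u (lineTo z0 w t) i * u z0 j = u (lineTo z0 w t) j * u z0 i := by
    intro w t i j
    have hcw : Continuous fun w : Fin m → ℂ => lineTo z0 w t := by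
      rw [continuous_pi_iff]
      intro j
      unfold lineTo
      refine Fin.cases ?_ (fun i => ?_) j
      · simp only [Fin.cons_zero]
        fun_prop
      · simp only [Fin.cons_succ]
        fun_prop
    have hcui : ∀ i, Continuous fun w : Fin m → ℂ => u (lineTo z0 w t) i := fun i =>
      (hcuj i).comp hcw
    have h1 : IsClosed {w : Fin m → ℂ | u (lineTo z0 w t) i * u z0 j =
        u (lineTo z0 w t) j * u z0 i} :=
      isClosed_eq ((hcui i).mul continuous_const) ((hcui j).mul continuous_const)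
    have h2 := h1.closure_subset_iff.mpr (fun w hw => hline w hw t i j)
    exact h2 (dense_dirs z0 hu.codim w)
  have hall : ∀ z, ∀ i j, u z i * u z0 j = u z j * u z0 i := by
    intro z i j
    have h1 : IsClosed {z | u z i * u z0 j = u z j * u z0 i} :=
      isClosed_eq ((hcuj i).mul continuous_const) ((hcuj j).mul continuous_const)
    have h2 := h1.closure_subset_iff.mpr
      (fun s (hs : s ∈ {s : Fin (m + 1) → ℂ | s 0 ≠ z0 0}) => by
        have h3 := hcl (dirn z0 s) (s 0 - z0 0) i j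
        rw [lineTo_dirn z0 s hs] at h3
        exact h3)
    exact h2 (dense_ne (z0 0) z)
  obtain ⟨z, z', hz, hz', h1⟩ := hu.nonconst
  obtain ⟨s, hs⟩ := exists_smul_of_rel hu0 (hall z)
  obtain ⟨s', hs'⟩ := exists_smul_of_rel hu0 (hall z')
  have hs0 : s ≠ 0 := by
    rintro rfl
    exact (hu.mem z hz).1 (by rw [hs, zero_smul])
  exact h1 (s' / s) (by rw [hs', hs, smul_smul, div_mul_cancel₀ _ hs0])

/-- The special sets given by the maps from `ℂ ^ g` and by the entire curves agree. -/
theorem spCg_eq (U : Set (Fin (N + 1))) (F : ι → MvPolynomial (Fin (N + 1)) ℂ) :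
    SpCg U F = SpH U F := by
  ext x
  constructor
  · rintro ⟨hx, h⟩
    exact ⟨hx, fun G hG hv => h G hG fun g S u hu z _ => cg_vanish hv hu z⟩
  · rintro ⟨hx, h⟩
    refine ⟨hx, fun G hG hv => h G hG fun f hf z => ?_⟩
    have h1 : CgMap U F 1 ∅ (fun z => f (z 0)) := by
      obtain ⟨s, t, hst⟩ := hf.2.2
      refine ⟨hf.1.comp (differentiable_apply 0), Or.inl rfl, fun z _ => hf.2.1 _,
        fun _ => t, fun _ => s, Set.notMem_empty _, Set.notMem_empty _, hst⟩
    exact hv 1 ∅ _ h1 (fun _ => z) (Set.notMem_empty _)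

end Pool.Agent.Y190.AN
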