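import Pool.Agent.Y190.AN.Prim

/-!
The functions which are meromorphic at infinity.
-/

set_option autoImplicit false

open Filter Topology Set Metric

namespace Pool.Agent.Y190.AN

open Pool.Agent.W603.BP Pool.Agent.W601.PH

variable {r0 : ℝ} {hr0 : 0 < r0}

/-- meromorphic at infinity -/
def MI (f : ℂ → ℂ) : Prop := MeromorphicAt (fun w => f w⁻¹) 0

variable (r0 hr0) in
/-- The field of the functions which are meromorphic at infinity. -/
def Minf : IntermediateField ℂ (MK (exD r0 hr0)) where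
  carrier := {x | ∃ f, ∃ hf : MeromorphicOn f (exD r0 hr0).U, cl f hf = x ∧ MI f}
  mul_mem' := by
    rintro _ _ ⟨f, hf, rfl, h⟩ ⟨g, hg, rfl, h'⟩
    exact ⟨_, hf.mul hg, cl_mul hf hg, h.fun_mul h'⟩
  add_mem' := by
    rintro _ _ ⟨f, hf, rfl, h⟩ ⟨g, hg, rfl, h'⟩
    exact ⟨_, hf.add hg, cl_add hf hg, h.fun_add h'⟩
  algebraMap_mem' := fun c => ⟨_, MeromorphicOn.const c, cl_const c, MeromorphicAt.const c 0⟩
  inv_mem' := by
    rintro _ ⟨f, hf, rfl, h⟩
    exact ⟨_, hf.inv, (cl_inv hf).symm, h.fun_inv⟩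

theorem mem_Minf {x : MK (exD r0 hr0)} : x ∈ Minf r0 hr0 ↔
    ∃ f, ∃ hf : MeromorphicOn f (exD r0 hr0).U, cl f hf = x ∧ MI f := Iff.rfl

theorem tendsto_inv0 : Tendsto (fun w : ℂ => ‖w⁻¹‖) (𝓝[≠] 0) atTop := by
  have h1 : Tendsto (fun w : ℂ => w⁻¹) (𝓝[≠] 0) (Bornology.cobounded ℂ) :=
    tendsto_inv₀_nhdsNE_zero
  exact tendsto_norm_cobounded_atTop.comp h1

theorem ev_large (R0 : ℝ) : ∀ᶠ w : ℂ in 𝓝[≠] 0, R0 < ‖w⁻¹‖ :=
  tendsto_inv0.eventually_gt_atTop R0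

/-- a criterion -/
theorem mem_of_large {f : ℂ → ℂ} {hf : MeromorphicOn f (exD r0 hr0).U} {R : ℂ → ℂ} (hR : MI R)
    {R0 : ℝ} (h : ∀ z, R0 < ‖z‖ → ∀ᶠ w in 𝓝[≠] z, f w = R w) : cl f hf ∈ Minf r0 hr0 := by
  classical
  set R1 : ℝ := max R0 r0 + 1 with hR1
  have h0 : R0 < R1 := lt_of_le_of_lt (le_max_left R0 r0) (by linarith)
  let g : ℂ → ℂ := fun z => if R1 < ‖z‖ then R z else f z
  have hg : ∀ z ∈ Ext r0, ∀ᶠ w in 𝓝[≠] z, g w = f w := by
    intro z _
    by_cases hz : R0 < ‖z‖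
    · filter_upwards [h z hz] with w hw
      simp only [g]
      split_ifs
      · exact hw.symm
      · rfl
    · have h1 : ∀ᶠ w in 𝓝 z, ‖w‖ < R1 :=
        (continuous_norm.tendsto z).eventually_lt_const (lt_of_le_of_lt (not_lt.1 hz) h0)
      filter_upwards [nhdsWithin_le_nhds h1] with w hw
      simp only [g]
      rw [if_neg (not_lt.2 hw.le)]
  have hgM : MeromorphicOn g (exD r0 hr0).U := fun z hz =>
    (hf z hz).congr (by
      filter_upwards [hg z hz] with w hw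
      exact hw.symm)
  refine ⟨g, hgM, cl_eq.2 hg, ?_⟩
  refine MeromorphicAt.congr hR ?_
  filter_upwards [ev_large R1] with w hw
  simp only [g]
  rw [if_pos hw]

theorem root_bound {s : ℕ} (hs : s ≠ 0) (a : ℕ → ℂ) {y : ℂ}
    (h : y ^ s + ∑ i ∈ Finset.range s, a i * y ^ i = 0) :
    ‖y‖ ≤ 1 + ∑ i ∈ Finset.range s, ‖a i‖ := by
  have hnn : 0 ≤ ∑ i ∈ Finset.range s, ‖a i‖ := Finset.sum_nonneg fun i _ => norm_nonneg _
  by_cases hy : ‖y‖ ≤ 1
  · linarith
  push Not at hy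
  have hy0 : 0 < ‖y‖ := by linarith
  obtain ⟨t, rfl⟩ : ∃ t, s = t + 1 := ⟨s - 1, by omega⟩
  have h1 : y ^ (t + 1) = -∑ i ∈ Finset.range (t + 1), a i * y ^ i := by
    linear_combination h
  have h2 : ‖y‖ ^ (t + 1) ≤ (∑ i ∈ Finset.range (t + 1), ‖a i‖) * ‖y‖ ^ t := by
    rw [← norm_pow, h1, norm_neg, Finset.sum_mul]
    refine (norm_sum_le _ _).trans (Finset.sum_le_sum fun i hi => ?_)
    rw [norm_mul, norm_pow]
    refine mul_le_mul_of_nonneg_left (pow_le_pow_right₀ hy.le ?_) (norm_nonneg _)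
    have := Finset.mem_range.1 hi
    omega
  have h3 : ‖y‖ ≤ ∑ i ∈ Finset.range (t + 1), ‖a i‖ := by
    rw [pow_succ, mul_comm] at h2
    exact le_of_mul_le_mul_right h2 (pow_pos hy0 t)
  linarith

/-- moderate growth at infinity -/
theorem growth_of_MI {g : ℂ → ℂ} (hg : MI g) :
    ∃ (C : ℝ) (N : ℕ) (R0 : ℝ), 0 ≤ C ∧ ∀ z, R0 < ‖z‖ → ‖g z‖ ≤ C * ‖z‖ ^ N := by
  obtain ⟨N, hN⟩ := hg
  have h1 := hN.continuousAt.norm.tendsto.eventually_le_const
    (show ‖((0 : ℂ) - 0) ^ N • g (0 : ℂ)⁻¹‖ < ‖((0 : ℂ) - 0) ^ N • g (0 : ℂ)⁻¹‖ + 1 by linarith)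
  set C : ℝ := ‖((0 : ℂ) - 0) ^ N • g (0 : ℂ)⁻¹‖ + 1 with hC
  obtain ⟨δ, hδ, hb⟩ := Metric.eventually_nhds_iff_ball.1 h1
  refine ⟨C, N, max 0 δ⁻¹, by positivity, fun z hz => ?_⟩
  have hz0 : 0 < ‖z‖ := lt_of_le_of_lt (le_max_left _ _) hz
  have hz1 : δ⁻¹ < ‖z‖ := lt_of_le_of_lt (le_max_right _ _) hz
  have hzne : z ≠ 0 := norm_pos_iff.1 hz0
  have h2 := hb z⁻¹ (by
    rw [mem_ball_zero_iff, norm_inv]
    exact inv_lt_of_inv_lt₀ hδ hz1)
  simp only [sub_zero, inv_inv, smul_eq_mul] at h2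
  rw [norm_mul, norm_pow, norm_inv] at h2
  rw [inv_pow, inv_mul_le_iff₀ (pow_pos hz0 N)] at h2
  linarith [mul_comm (‖z‖ ^ N) C]

theorem MI_of_growth {f : ℂ → ℂ} {R0 C : ℝ} {N : ℕ} (hf : ∀ z, R0 < ‖z‖ → AnalyticAt ℂ f z)
    (hb : ∀ z, R0 < ‖z‖ → ‖f z‖ ≤ C * ‖z‖ ^ N) : MI f := by
  set h : ℂ → ℂ := fun w => w ^ (N + 1) * f w⁻¹ with hh
  have h0 : h 0 = 0 := by simp [hh]
  have hd : ∀ᶠ w in 𝓝[≠] (0 : ℂ), DifferentiableAt ℂ h w := by
    filter_upwards [ev_large R0, self_mem_nhdsWithin] with w hw hne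
    have h1 : AnalyticAt ℂ (fun w => f w⁻¹) w :=
      (hf w⁻¹ hw).comp (g := f) (f := fun w : ℂ => w⁻¹) (analyticAt_inv hne)
    exact ((analyticAt_id.fun_pow (N + 1)).fun_mul h1).differentiableAt
  have hc : ContinuousAt h 0 := by
    rw [ContinuousAt, h0]
    have h1 : ∀ᶠ w in 𝓝 (0 : ℂ), ‖h w‖ ≤ C * ‖w‖ := by
      have h2 := ev_large R0
      rw [eventually_nhdsWithin_iff] at h2
      filter_upwards [h2] with w hw
      by_cases hw0 : w = 0
      · rw [hw0, h0, norm_zero, mul_zero]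
      · have h3 := hb w⁻¹ (hw hw0)
        have h4 : 0 < ‖w‖ := norm_pos_iff.2 hw0
        rw [hh]
        simp only
        rw [norm_mul, norm_pow]
        calc ‖w‖ ^ (N + 1) * ‖f w⁻¹‖ ≤ ‖w‖ ^ (N + 1) * (C * ‖w⁻¹‖ ^ N) :=
              mul_le_mul_of_nonneg_left h3 (by positivity)
          _ = C * ‖w‖ := by
              rw [norm_inv, pow_succ, inv_pow]
              have := h4.ne'
              field_simp
    refine squeeze_zero_norm' h1 ?_
    have h2 : Tendsto (fun w : ℂ => C * ‖w‖) (𝓝 0) (𝓝 (C * ‖(0 : ℂ)‖)) :=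
      (continuous_const.mul continuous_norm).tendsto 0
    rwa [norm_zero, mul_zero] at h2
  have ha : AnalyticAt ℂ h 0 :=
    Complex.analyticAt_of_differentiable_on_punctured_nhds_of_continuousAt hd hc
  have h5 : MeromorphicAt (fun w => (w ^ (N + 1))⁻¹ * h w) 0 :=
    (analyticAt_id.fun_pow (N + 1)).meromorphicAt.fun_inv.fun_mul ha.meromorphicAt
  refine MeromorphicAt.congr h5 ?_
  filter_upwards [self_mem_nhdsWithin] with w hw
  have hw0 : w ≠ 0 := hw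
  rw [hh]
  simp only
  rw [← mul_assoc, inv_mul_cancel₀ (pow_ne_zero _ hw0), one_mul]

/-- The field of the functions which are meromorphic at infinity is algebraically closed in the
field of the meromorphic functions. -/
theorem Minf_closed {x : MK (exD r0 hr0)} (hx : IsAlgebraic (Minf r0 hr0) x) :
    x ∈ Minf r0 hr0 := by
  classical
  set P := minpoly (Minf r0 hr0) x with hP
  have hPm : P.Monic := minpoly.monic hx.isIntegral
  set s := P.natDegree with hs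
  have hs0 : s ≠ 0 := (minpoly.natDegree_pos hx.isIntegral).ne'
  obtain ⟨f, hf, hfx⟩ := cl_surj x
  have hc : ∀ i, ∃ g, ∃ hg : MeromorphicOn g (exD r0 hr0).U,
      cl g hg = ((P.coeff i : Minf r0 hr0) : MK (exD r0 hr0)) ∧ MI g := fun i => (P.coeff i).2
  choose g hg hgx hgi using hc
  -- the relation
  have hrel : ∀ z ∈ Ext r0, ∀ᶠ w in 𝓝[≠] z,
      f w ^ s + ∑ i ∈ Finset.range s, g i w * f w ^ i = 0 := by
    have h1 : Polynomial.aeval x P = 0 := minpoly.aeval _ _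
    rw [Polynomial.aeval_eq_sum_range, Finset.sum_range_succ, hPm.coeff_natDegree, one_smul,
      add_comm] at h1
    have hM1 : MeromorphicOn (fun w => f w ^ s) (exD r0 hr0).U := hf.fun_pow s
    have hM2 : ∀ i, MeromorphicOn (fun w => g i w * f w ^ i) (exD r0 hr0).U :=
      fun i => (hg i).fun_mul (hf.fun_pow i)
    have hM3 : MeromorphicOn (fun w => ∑ i ∈ Finset.range s, g i w * f w ^ i) (exD r0 hr0).U :=
      MeromorphicOn.fun_sum hM2
    have h2 : cl (fun w => f w ^ s + ∑ i ∈ Finset.range s, g i w * f w ^ i) (hM1.fun_add hM3) =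
        0 := by
      rw [← h1]
      have e0 : ∀ (F : MS (exD r0 hr0)), Ideal.Quotient.mk (MJ (exD r0 hr0)) F =
          cl F.1 F.2 := fun _ => rfl
      let f' : MS (exD r0 hr0) := ⟨f, hf⟩
      let g' : ℕ → MS (exD r0 hr0) := fun i => ⟨g i, hg i⟩
      have e1 : (f' ^ s + ∑ i ∈ Finset.range s, g' i * f' ^ i : MS (exD r0 hr0)).1 =
          fun w => f w ^ s + ∑ i ∈ Finset.range s, g i w * f w ^ i := by
        funext w
        change ((f' ^ s + ∑ i ∈ Finset.range s, g' i * f' ^ i : MS (exD r0 hr0)) : ℂ → ℂ) w = _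
        rw [Subalgebra.coe_add, Subalgebra.coe_pow, AddSubmonoidClass.coe_finsetSum,
          Pi.add_apply, Pi.pow_apply, Finset.sum_apply]
        rfl
      have e2 : cl (fun w => f w ^ s + ∑ i ∈ Finset.range s, g i w * f w ^ i)
          (hM1.fun_add hM3) = Ideal.Quotient.mk (MJ (exD r0 hr0))
            (f' ^ s + ∑ i ∈ Finset.range s, g' i * f' ^ i) := by
        rw [e0]
        congr 1
        exact e1.symm
      rw [e2, map_add, map_pow, map_sum]
      congr 1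
      · rw [← hfx]
        rfl
      · refine Finset.sum_congr rfl fun i _ => ?_
        rw [map_mul, map_pow, Algebra.smul_def]
        congr 1
        · exact hgx i
        · rw [← hfx]
          rfl
    exact cl_eq_zero.1 h2
  -- the growth
  have hgr := fun i => growth_of_MI (hgi i)
  choose C N R hC0 hgr using hgr
  set R0 : ℝ := max r0 (max 1 (∑ i ∈ Finset.range s, |R i|)) with hR0
  have hR0r : r0 ≤ R0 := le_max_left _ _
  have hR01 : 1 ≤ R0 := (le_max_left _ _).trans (le_max_right _ _)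
  have hR0i : ∀ i ∈ Finset.range s, R i ≤ R0 := fun i hi =>
    (le_abs_self _).trans ((Finset.single_le_sum (f := fun i => |R i|)
      (fun _ _ => abs_nonneg _) hi).trans ((le_max_right _ _).trans (le_max_right _ _)))
  set NN : ℕ := ∑ i ∈ Finset.range s, N i with hNN
  set CC : ℝ := 1 + ∑ i ∈ Finset.range s, C i with hCC
  have hbound : ∀ w, R0 < ‖w‖ → f w ^ s + ∑ i ∈ Finset.range s, g i w * f w ^ i = 0 →
      ‖f w‖ ≤ CC * ‖w‖ ^ NN := by
    intro w hw h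
    have h1 := root_bound hs0 (fun i => g i w) h
    have hw1 : 1 ≤ ‖w‖ := hR01.trans hw.le
    refine h1.trans ?_
    rw [hCC, add_mul, one_mul, Finset.sum_mul]
    refine add_le_add (one_le_pow₀ hw1) (Finset.sum_le_sum fun i hi => ?_)
    refine (hgr i w (lt_of_le_of_lt (hR0i i hi) hw)).trans ?_
    refine mul_le_mul_of_nonneg_left (pow_le_pow_right₀ hw1 ?_) (hC0 i)
    exact Finset.single_le_sum (f := N) (fun _ _ => Nat.zero_le _) hi
  -- the normal form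
  set f' := toMeromorphicNFOn f (exD r0 hr0).U with hf'
  have hNF : MeromorphicNFOn f' (exD r0 hr0).U := meromorphicNFOn_toMeromorphicNFOn f _
  have hff' : ∀ z ∈ (exD r0 hr0).U, f' =ᶠ[𝓝[≠] z] f := fun z hz =>
    hf.toMeromorphicNFOn_eq_self_on_nhdsNE hz
  have hb' : ∀ z, R0 < ‖z‖ → ∀ᶠ w in 𝓝[≠] z, ‖f' w‖ ≤ CC * ‖w‖ ^ NN := by
    intro z hz
    have hzU : z ∈ (exD r0 hr0).U := lt_of_le_of_lt hR0r hz
    have h1 : ∀ᶠ w in 𝓝 z, R0 < ‖w‖ := (continuous_norm.tendsto z).eventually_const_lt hz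
    filter_upwards [hff' z hzU, hrel z hzU, nhdsWithin_le_nhds h1] with w h2 h3 h4
    rw [h2]
    exact hbound w h4 h3
  have han : ∀ z, R0 < ‖z‖ → AnalyticAt ℂ f' z := by
    intro z hz
    have hzU : z ∈ (exD r0 hr0).U := lt_of_le_of_lt hR0r hz
    rw [← (hNF hzU).meromorphicOrderAt_nonneg_iff_analyticAt]
    by_contra hneg
    have h1 := tendsto_cobounded_of_meromorphicOrderAt_neg (not_le.1 hneg)
    have h2 : Tendsto (fun w => ‖f' w‖) (𝓝[≠] z) atTop := tendsto_norm_cobounded_atTop.comp h1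
    have h3 : Tendsto (fun w : ℂ => CC * ‖w‖ ^ NN) (𝓝[≠] z) (𝓝 (CC * ‖z‖ ^ NN)) :=
      ((continuous_const.mul (continuous_norm.pow NN)).tendsto z).mono_left nhdsWithin_le_nhds
    have h4 := (h3.eventually_lt_const (show CC * ‖z‖ ^ NN < CC * ‖z‖ ^ NN + 1 by linarith)).and
      ((hb' z hz).and (h2.eventually_gt_atTop (CC * ‖z‖ ^ NN + 1)))
    obtain ⟨w, h5, h6, h7⟩ := h4.exists
    linarith
  have hb2 : ∀ z, R0 < ‖z‖ → ‖f' z‖ ≤ CC * ‖z‖ ^ NN := by
    intro z hz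
    have h1 : Tendsto (fun w => ‖f' w‖) (𝓝[≠] z) (𝓝 ‖f' z‖) :=
      ((han z hz).continuousAt.norm.tendsto).mono_left nhdsWithin_le_nhds
    have h3 : Tendsto (fun w : ℂ => CC * ‖w‖ ^ NN) (𝓝[≠] z) (𝓝 (CC * ‖z‖ ^ NN)) :=
      ((continuous_const.mul (continuous_norm.pow NN)).tendsto z).mono_left nhdsWithin_le_nhds
    exact le_of_tendsto_of_tendsto h1 h3 (hb' z hz)
  refine ⟨f', hNF.meromorphicOn, ?_, MI_of_growth han hb2⟩
  rw [← hfx, cl_eq]
  exact hff'

end Pool.Agent.Y190.AN
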