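import Mathlib
import Pool.Agent.W602.GT.Defs

/-!
The field of meromorphic functions on a connected open subset of the plane.
-/

set_option autoImplicit false

open Filter Topology Set

namespace Pool.Agent.Y190.AN

/-- a connected open set -/
structure Dm where
  /-- the set -/
  U : Set ℂ
  op : IsOpen U
  conn : IsConnected U

variable (D : Dm)

/-- the functions which are meromorphic on the set -/
def MS : Subalgebra ℂ (ℂ → ℂ) where
  carrier := {f | MeromorphicOn f D.U}
  mul_mem' := fun hf hg z hz => (hf z hz).mul (hg z hz)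
  add_mem' := fun hf hg z hz => (hf z hz).add (hg z hz)
  algebraMap_mem' := fun c z _ => MeromorphicAt.const c z

/-- the functions which vanish near all points -/
def MJ : Ideal (MS D) where
  carrier := {f | ∀ z ∈ D.U, ∀ᶠ w in 𝓝[≠] z, f.1 w = 0}
  add_mem' := by
    intro f g hf hg z hz
    filter_upwards [hf z hz, hg z hz] with w h1 h2
    change f.1 w + g.1 w = 0
    rw [h1, h2, add_zero]
  zero_mem' := fun z _ => Eventually.of_forall fun _ => rfl
  smul_mem' := by
    intro c f hf z hz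
    filter_upwards [hf z hz] with w h1
    change c.1 w * f.1 w = 0
    rw [h1, mul_zero]

variable {D}

theorem mem_MJ {f : MS D} : f ∈ MJ D ↔ ∀ z ∈ D.U, ∀ᶠ w in 𝓝[≠] z, f.1 w = 0 := Iff.rfl

/-- A meromorphic function which vanishes near one point vanishes. -/
theorem zero_all {f : ℂ → ℂ} (hf : MeromorphicOn f D.U) {z : ℂ} (hz : z ∈ D.U)
    (h : ∀ᶠ w in 𝓝[≠] z, f w = 0) : ∀ z' ∈ D.U, ∀ᶠ w in 𝓝[≠] z', f w = 0 := by
  intro z' hz'
  by_contra hcon
  have h1 : meromorphicOrderAt f z' ≠ ⊤ := fun h0 => hcon (meromorphicOrderAt_eq_top_iff.1 h0)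
  exact hf.meromorphicOrderAt_ne_top_of_isPreconnected D.conn.isPreconnected hz' hz h1
    (meromorphicOrderAt_eq_top_iff.2 h)

theorem ne_all {f : ℂ → ℂ} (hf : MeromorphicOn f D.U)
    (h : ¬ ∀ z ∈ D.U, ∀ᶠ w in 𝓝[≠] z, f w = 0) :
    ∀ z ∈ D.U, meromorphicOrderAt f z ≠ ⊤ := fun _ hz h0 =>
  h (zero_all hf hz (meromorphicOrderAt_eq_top_iff.1 h0))

instance : (MJ D).IsMaximal := by
  rw [Ideal.isMaximal_iff]
  constructor
  · intro h
    obtain ⟨z, hz⟩ := D.conn.nonempty
    have h1 : ∀ᶠ w in 𝓝[≠] z, (1 : ℂ) = 0 := h z hz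
    obtain ⟨_, h2⟩ := h1.exists
    exact one_ne_zero h2
  · intro I x hI hx hxI
    have h1 := ne_all x.2 hx
    have h2 : (⟨(x.1)⁻¹, fun z hz => (x.2 z hz).inv⟩ : MS D) * x ∈ I := I.mul_mem_left _ hxI
    have h3 : (1 : MS D) - (⟨(x.1)⁻¹, fun z hz => (x.2 z hz).inv⟩ : MS D) * x ∈ MJ D := by
      intro z hz
      filter_upwards [(meromorphicOrderAt_ne_top_iff_eventually_ne_zero (x.2 z hz)).1 (h1 z hz)]
        with w hw
      change 1 - (x.1 w)⁻¹ * x.1 w = 0
      rw [inv_mul_cancel₀ hw, sub_self]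
    have h4 := I.add_mem (hI h3) h2
    rwa [sub_add_cancel] at h4

variable (D)

/-- the field of meromorphic functions -/
abbrev MK : Type := MS D ⧸ MJ D

noncomputable instance : Field (MK D) := Ideal.Quotient.field (MJ D)

variable {D}

/-- the class of a meromorphic function -/
noncomputable def cl (f : ℂ → ℂ) (hf : MeromorphicOn f D.U) : MK D :=
  Ideal.Quotient.mk (MJ D) ⟨f, hf⟩

theorem cl_eq {f g : ℂ → ℂ} {hf : MeromorphicOn f D.U} {hg : MeromorphicOn g D.U} :
    cl f hf = cl g hg ↔ ∀ z ∈ D.U, ∀ᶠ w in 𝓝[≠] z, f w = g w := by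
  unfold cl
  rw [Ideal.Quotient.eq, mem_MJ]
  constructor
  · intro h z hz
    filter_upwards [h z hz] with z hz
    exact sub_eq_zero.1 hz
  · intro h z hz
    filter_upwards [h z hz] with z hz
    exact sub_eq_zero.2 hz

theorem cl_add {f g : ℂ → ℂ} (hf : MeromorphicOn f D.U) (hg : MeromorphicOn g D.U) :
    cl f hf + cl g hg = cl (f + g) (hf.add hg) := rfl

theorem cl_mul {f g : ℂ → ℂ} (hf : MeromorphicOn f D.U) (hg : MeromorphicOn g D.U) :
    cl f hf * cl g hg = cl (f * g) (hf.mul hg) := rfl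

theorem cl_const (c : ℂ) : cl (fun _ => c) (MeromorphicOn.const c) =
    algebraMap ℂ (MK D) c := rfl

theorem cl_eq_zero {f : ℂ → ℂ} {hf : MeromorphicOn f D.U} :
    cl f hf = 0 ↔ ∀ z ∈ D.U, ∀ᶠ w in 𝓝[≠] z, f w = 0 := by
  have h1 : (0 : MK D) = cl (fun _ => 0) (MeromorphicOn.const 0) := by
    rw [cl_const, map_zero]
  rw [h1, cl_eq]

theorem cl_ne_zero {f : ℂ → ℂ} {hf : MeromorphicOn f D.U} (h : cl f hf ≠ 0) :
    ∀ z ∈ D.U, meromorphicOrderAt f z ≠ ⊤ := ne_all hf fun h0 => h (cl_eq_zero.2 h0)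

theorem cl_inv {f : ℂ → ℂ} (hf : MeromorphicOn f D.U) :
    (cl f hf)⁻¹ = cl f⁻¹ hf.inv := by
  by_cases h : cl f hf = 0
  · rw [h, inv_zero]
    symm
    rw [cl_eq_zero] at h ⊢
    intro z hz
    filter_upwards [h z hz] with w hw
    rw [Pi.inv_apply, hw, inv_zero]
  · apply inv_eq_of_mul_eq_one_right
    rw [cl_mul]
    have h1 : (1 : MK D) = cl (fun _ => 1) (MeromorphicOn.const 1) := by
      rw [cl_const, map_one]
    rw [h1, cl_eq]
    intro z hz
    filter_upwards [(meromorphicOrderAt_ne_top_iff_eventually_ne_zero (hf z hz)).1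
      (cl_ne_zero h z hz)] with w hw
    rw [Pi.mul_apply, Pi.inv_apply, mul_inv_cancel₀ hw]

theorem cl_div {f g : ℂ → ℂ} (hf : MeromorphicOn f D.U) (hg : MeromorphicOn g D.U) :
    cl f hf / cl g hg = cl (f / g) (hf.div hg) := by
  rw [div_eq_mul_inv, cl_inv, cl_mul, cl_eq]
  exact fun z _ => Eventually.of_forall fun w => by simp [div_eq_mul_inv]

theorem cl_surj (x : MK D) : ∃ f, ∃ hf : MeromorphicOn f D.U, cl f hf = x := by
  obtain ⟨⟨f, hf⟩, h⟩ := Ideal.Quotient.mk_surjective x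
  exact ⟨f, hf, h⟩

instance : CharZero (MK D) := charZero_of_injective_algebraMap (algebraMap ℂ (MK D)).injective

/-! ### the derivation -/

theorem deriv_ev {f g : ℂ → ℂ} {z : ℂ} (h : ∀ᶠ w in 𝓝[≠] z, f w = g w) :
    ∀ᶠ w in 𝓝[≠] z, deriv f w = deriv g w := by
  have h1 : ∀ᶠ w in 𝓝[≠] z, ∀ᶠ v in 𝓝 w, f v = g v := by
    have h2 := eventually_eventually_nhdsWithin.2 h
    filter_upwards [h2, self_mem_nhdsWithin] with w hw hne
    rwa [nhdsWithin_eq_nhds.2 (isOpen_compl_singleton.mem_nhds hne)] at hw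
  filter_upwards [h1] with w hw
  exact Filter.EventuallyEq.deriv_eq hw

/-- the derivative -/
noncomputable def MD (x : MK D) : MK D :=
  cl (deriv (Classical.choose (cl_surj x)))
    (Classical.choose (Classical.choose_spec (cl_surj x))).deriv

theorem MD_cl {f : ℂ → ℂ} (hf : MeromorphicOn f D.U) :
    MD (cl f hf) = cl (deriv f) hf.deriv := by
  unfold MD
  rw [cl_eq]
  intro z hz
  apply deriv_ev
  exact cl_eq.1 (Classical.choose_spec (Classical.choose_spec (cl_surj (cl f hf)))) z hz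

theorem MD_add (x y : MK D) : MD (x + y) = MD x + MD y := by
  obtain ⟨f, hf, rfl⟩ := cl_surj x
  obtain ⟨g, hg, rfl⟩ := cl_surj y
  rw [cl_add, MD_cl, MD_cl, MD_cl, cl_add, cl_eq]
  intro z hz
  filter_upwards [(hf z hz).eventually_analyticAt, (hg z hz).eventually_analyticAt] with w h1 h2
  rw [Pi.add_apply]
  exact deriv_add h1.differentiableAt h2.differentiableAt

theorem MD_mul (x y : MK D) : MD (x * y) = x * MD y + y * MD x := by
  obtain ⟨f, hf, rfl⟩ := cl_surj x
  obtain ⟨g, hg, rfl⟩ := cl_surj y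
  rw [cl_mul, MD_cl, MD_cl, MD_cl, cl_mul, cl_mul, cl_add, cl_eq]
  intro z hz
  filter_upwards [(hf z hz).eventually_analyticAt, (hg z hz).eventually_analyticAt] with w h1 h2
  rw [Pi.add_apply, Pi.mul_apply, Pi.mul_apply]
  rw [deriv_mul h1.differentiableAt h2.differentiableAt]
  ring

theorem MD_const (c : ℂ) : MD (algebraMap ℂ (MK D) c) = 0 := by
  rw [← cl_const, MD_cl, cl_eq_zero]
  exact fun z _ => Eventually.of_forall fun z => by simp

variable (D) in
/-- the derivation as a Mathlib derivation -/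
noncomputable def MDer : Derivation ℂ (MK D) (MK D) :=
  Derivation.mk'
    { toFun := MD
      map_add' := MD_add
      map_smul' := fun c x => by
        rw [Algebra.smul_def, MD_mul, MD_const, mul_zero, add_zero, RingHom.id_apply,
          Algebra.smul_def] }
    (fun x y => by
      change MD (x * y) = x • MD y + y • MD x
      rw [MD_mul, smul_eq_mul, smul_eq_mul])

theorem MDer_apply (x : MK D) : MDer D x = MD x := rfl

/-- the constants -/
theorem MDer_eq_zero {x : MK D} (h : MDer D x = 0) : ∃ c : ℂ, x = algebraMap ℂ (MK D) c := by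
  obtain ⟨f, hf, rfl⟩ := cl_surj x
  rw [MDer_apply, MD_cl, cl_eq_zero] at h
  obtain ⟨z, hz⟩ := D.conn.nonempty
  have h1 := h z hz
  have h2 := (hf z hz).eventually_analyticAt
  have h3 : ∀ᶠ w in 𝓝[≠] z, w ∈ D.U := nhdsWithin_le_nhds (D.op.mem_nhds hz)
  have h4 : ∀ᶠ w in 𝓝[≠] z, ∀ᶠ v in 𝓝 w, deriv f v = 0 ∧ AnalyticAt ℂ f v := by
    have h5 := eventually_eventually_nhdsWithin.2 (h1.and h2)
    filter_upwards [h5, self_mem_nhdsWithin] with w hw hne
    rwa [nhdsWithin_eq_nhds.2 (isOpen_compl_singleton.mem_nhds hne)] at hw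
  obtain ⟨w, hw, hwU⟩ := (h4.and h3).exists
  obtain ⟨ε, hε, hb⟩ := Metric.eventually_nhds_iff_ball.1 hw
  obtain ⟨c, hc⟩ := Metric.isOpen_ball.exists_is_const_of_deriv_eq_zero
    (convex_ball w ε).isPreconnected (f := f)
    (fun v hv => (hb v hv).2.differentiableAt.differentiableWithinAt) (fun v hv => (hb v hv).1)
  refine ⟨c, ?_⟩
  rw [← cl_const, cl_eq]
  have h6 := zero_all (D := D) (f := fun v => f v - c)
    (fun z hz => (hf z hz).sub (MeromorphicAt.const c z)) hwU (by
      filter_upwards [nhdsWithin_le_nhds (Metric.isOpen_ball.mem_nhds (Metric.mem_ball_self hε))]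
        with v hv
      rw [hc v hv, sub_self])
  intro z hz
  filter_upwards [h6 z hz] with v hv
  exact sub_eq_zero.1 hv

/-! ### the places -/

open Classical in
/-- the order at a point -/
noncomputable def mord (z : ℂ) (x : MK D) : ℤ :=
  (meromorphicOrderAt (Classical.choose (cl_surj x)) z).untop₀

theorem mord_cl {f : ℂ → ℂ} (hf : MeromorphicOn f D.U) {z : ℂ} (hz : z ∈ D.U) :
    mord z (cl f hf) = (meromorphicOrderAt f z).untop₀ := by
  unfold mord
  congr 1
  apply meromorphicOrderAt_congr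
  exact cl_eq.1 (Classical.choose_spec (Classical.choose_spec (cl_surj (cl f hf)))) z hz

/-- the place of a point -/
noncomputable def PL {z : ℂ} (hz : z ∈ D.U) : FF.Place ℂ (MK D) where
  ord := mord z
  ord_zero := by
    have h1 : (0 : MK D) = cl (fun _ => 0) (MeromorphicOn.const 0) := by
      rw [cl_const, map_zero]
    rw [h1, mord_cl _ hz]
    have h2 : meromorphicOrderAt (fun _ : ℂ => (0 : ℂ)) z = ⊤ := by
      rw [meromorphicOrderAt_eq_top_iff]
      exact Eventually.of_forall fun _ => rfl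
    rw [h2]
    rfl
  ord_mul := by
    intro x y hx hy
    obtain ⟨f, hf, rfl⟩ := cl_surj x
    obtain ⟨g, hg, rfl⟩ := cl_surj y
    rw [cl_mul, mord_cl _ hz, mord_cl _ hz, mord_cl _ hz,
      meromorphicOrderAt_mul (hf z hz) (hg z hz)]
    exact WithTop.untop₀_add (cl_ne_zero hx z hz) (cl_ne_zero hy z hz)
  ord_add := by
    intro x y hx hy hxy
    obtain ⟨f, hf, rfl⟩ := cl_surj x
    obtain ⟨g, hg, rfl⟩ := cl_surj y
    rw [cl_add] at hxy ⊢
    rw [mord_cl _ hz, mord_cl _ hz, mord_cl _ hz]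
    have h1 := meromorphicOrderAt_add (hf z hz) (hg z hz)
    have e1 := cl_ne_zero hx z hz
    have e2 := cl_ne_zero hy z hz
    have e3 := cl_ne_zero hxy z hz
    obtain ⟨a, ha⟩ := WithTop.ne_top_iff_exists.1 e1
    obtain ⟨b, hb⟩ := WithTop.ne_top_iff_exists.1 e2
    obtain ⟨c, hc⟩ := WithTop.ne_top_iff_exists.1 e3
    rw [← ha, ← hb, ← hc] at h1 ⊢
    rw [← WithTop.coe_min, WithTop.coe_le_coe] at h1
    exact h1
  ord_const := by
    intro c hc
    rw [← cl_const, mord_cl _ hz, meromorphicOrderAt_const, if_neg hc]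
    rfl
  surj := by
    have hm : MeromorphicOn (fun w => w - z) D.U := fun w _ =>
      (analyticAt_id.fun_sub analyticAt_const).meromorphicAt
    have h1 : meromorphicOrderAt (fun w : ℂ => w - z) z = 1 := by
      have h2 : ((1 : ℤ) : WithTop ℤ) = 1 := rfl
      rw [← h2, meromorphicOrderAt_eq_int_iff (hm z hz)]
      refine ⟨fun _ => 1, analyticAt_const, one_ne_zero, ?_⟩
      filter_upwards with w
      simp
    refine ⟨cl _ hm, ?_, ?_⟩
    · intro h0
      have := meromorphicOrderAt_eq_top_iff.2 (cl_eq_zero.1 h0 z hz)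
      rw [h1] at this
      exact absurd this (by decide)
    · rw [mord_cl _ hz, h1]
      rfl

theorem PL_cl {f : ℂ → ℂ} (hf : MeromorphicOn f D.U) {z : ℂ} (hz : z ∈ D.U) :
    (PL hz).ord (cl f hf) = (meromorphicOrderAt f z).untop₀ := mord_cl hf hz

end Pool.Agent.Y190.AN
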