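import Pool.Agent.Y190.AN.Stc
import Pool.Agent.Y190.BV.Cng
import Pool.Agent.W603.BP.PSMain
import Pool.Agent.W602.GT.SpGmDefs

/-!
Holomorphic maps from the punctured disc to varieties of powers of values of polynomials.
-/

set_option autoImplicit false

open Filter Topology Set Metric

namespace Pool.Agent.Y190.AN

open FF Pool.Agent.W603.BP Pool.Agent.W601.PH Pool.Agent.Y190.BV
  Pool.Agent.W602.GT Pool.Agent.H159R3.GGLLog Pool.Agent.H159R3.NV

section val

variable {D : Dm} {N : ℕ}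

theorem eval_mero (G : MvPolynomial (Fin (N + 1)) ℂ) {g : Fin (N + 1) → ℂ → ℂ}
    (hg : ∀ i, MeromorphicOn (g i) D.U) :
    MeromorphicOn (fun z => MvPolynomial.eval (fun i => g i z) G) D.U := by
  intro z hz
  simp only [MvPolynomial.eval_eq']
  apply MeromorphicAt.fun_sum
  intro α _
  apply (MeromorphicAt.const _ z).fun_mul
  apply MeromorphicAt.fun_prod
  intro j _
  exact (hg j z hz).fun_pow _

theorem val_cl (G : MvPolynomial (Fin (N + 1)) ℂ) {g : Fin (N + 1) → ℂ → ℂ}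
    (hg : ∀ i, MeromorphicOn (g i) D.U)
    (h : MeromorphicOn (fun z => MvPolynomial.eval (fun i => g i z) G) D.U) :
    val (fun i => cl (g i) (hg i)) G = cl (fun z => MvPolynomial.eval (fun i => g i z) G) h := by
  let g' : Fin (N + 1) → MS D := fun i => ⟨g i, hg i⟩
  have h1 : val (fun i => cl (g i) (hg i)) G =
      Ideal.Quotient.mkₐ ℂ (MJ D) (MvPolynomial.aeval g' G) := by
    unfold val
    have e : (Ideal.Quotient.mkₐ ℂ (MJ D)).comp (MvPolynomial.aeval g') =
        MvPolynomial.aeval (fun i => cl (g i) (hg i)) := by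
      apply MvPolynomial.algHom_ext
      intro i
      simp only [AlgHom.comp_apply, MvPolynomial.aeval_X]
      rfl
    rw [← e]
    rfl
  have h2 : (MvPolynomial.aeval g' G : MS D).1 =
      fun z => MvPolynomial.eval (fun i => g i z) G := by
    funext w
    let φ : MS D →ₐ[ℂ] ℂ := (Pi.evalAlgHom ℂ (fun _ : ℂ => ℂ) w).comp (MS D).val
    have e : φ.comp (MvPolynomial.aeval g') = MvPolynomial.aeval (fun i => g i w) := by
      apply MvPolynomial.algHom_ext
      intro i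
      simp only [AlgHom.comp_apply, MvPolynomial.aeval_X]
      rfl
    have h3 := congrArg (fun ψ : MvPolynomial (Fin (N + 1)) ℂ →ₐ[ℂ] ℂ => ψ G) e
    simp only [AlgHom.comp_apply] at h3
    rw [MvPolynomial.aeval_eq_eval] at h3
    exact h3
  rw [h1]
  change cl (MvPolynomial.aeval g' G : MS D).1 _ = _
  congr 1

end val

theorem val_eq {N : ℕ} (x : Fin (N + 1) → ℂ) (G : MvPolynomial (Fin (N + 1)) ℂ) :
    val x G = MvPolynomial.eval x G := by
  unfold val
  rw [← MvPolynomial.aeval_eq_eval]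

theorem pts_eq {N : ℕ} {ι : Type} (F : ι → MvPolynomial (Fin (N + 1)) ℂ) :
    Pts ∅ F = Cone F := by
  ext x
  constructor
  · rintro ⟨h1, -, h3⟩
    exact ⟨h1, fun e => by rw [val_eq]; exact h3 e⟩
  · rintro ⟨h1, h3⟩
    exact ⟨h1, fun j hj => absurd hj (Set.notMem_empty j), fun e => by rw [← val_eq]; exact h3 e⟩

/-- the coordinates at infinity -/
theorem coord_an {N : ℕ} {ι : Type} {U : Set (Fin (N + 1))} {F : ι → MvPolynomial (Fin (N + 1)) ℂ}
    {f : ℂ → Fin (N + 1) → ℂ} (hf : PCurve U F f) (i : Fin (N + 1)) :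
    ∀ z ∈ Ext 1, AnalyticAt ℂ (fun z => f z⁻¹ i) z := by
  intro z hz
  have hz1 : 1 < ‖z‖ := hz
  have hz0 : z ≠ 0 := by
    rintro rfl
    rw [norm_zero] at hz1
    linarith
  have h1 : z⁻¹ ∈ PB 1 := ⟨inv_ne_zero hz0, by rw [norm_inv]; exact inv_lt_one_of_one_lt₀ hz1⟩
  exact (hf.an i z⁻¹ h1).comp (g := fun w => f w i) (f := fun w : ℂ => w⁻¹) (analyticAt_inv hz0)

theorem inv_mem_ext {w : ℂ} (hw : w ∈ PB 1) : w⁻¹ ∈ Ext 1 := by
  change 1 < ‖w⁻¹‖
  rw [norm_inv]
  exact (one_lt_inv₀ (norm_pos_iff.2 hw.1)).2 hw.2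

/-- A holomorphic map from the punctured disc whose coordinates have meromorphic ratios extends. -/
theorem extends_of_minf {N : ℕ} {ι : Type} {U : Set (Fin (N + 1))}
    {F : ι → MvPolynomial (Fin (N + 1)) ℂ} {f : ℂ → Fin (N + 1) → ℂ} (hf : PCurve U F f)
    (hM : ∀ i, MeromorphicOn (fun z => f z⁻¹ i) (exD 1 one_pos).U)
    (h : ∀ i j, cl _ (hM j) ≠ 0 → cl _ (hM i) / cl _ (hM j) ∈ Minf 1 one_pos) : Extends f := by
  refine extends_of f hf.an (fun w hw => (hf.2 w (mem_disc.2 hw)).1) fun j k _ hk => ?_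
  have hk0 : cl _ (hM k) ≠ 0 := by
    intro h0
    apply hk
    filter_upwards [PB_mem one_pos] with w hw
    have h1 := cl_eq_zero.1 h0 w⁻¹ (inv_mem_ext hw)
    have h2 := (coord_an hf k w⁻¹ (inv_mem_ext hw)).frequently_zero_iff_eventually_zero.1
      h1.frequently
    have h3 := h2.self_of_nhds
    rwa [inv_inv] at h3
  obtain ⟨g, hg, hgx, hgi⟩ := h j k hk0
  have hrel : ∀ z ∈ Ext 1, ∀ᶠ w in 𝓝[≠] z, f w⁻¹ j = g w * f w⁻¹ k := by
    have h1 : cl _ (hM j) = cl (g * fun z => f z⁻¹ k) (hg.mul (hM k)) := by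
      rw [← cl_mul hg (hM k), hgx, div_mul_cancel₀ _ hk0]
    exact cl_eq.1 h1
  refine ⟨fun w => g w⁻¹, hgi, ?_⟩
  filter_upwards [hgi.eventually_analyticAt, PB_mem one_pos] with w hw hwP
  have h1 : Tendsto (fun v : ℂ => v⁻¹) (𝓝[≠] w) (𝓝[≠] w⁻¹) := by
    refine tendsto_nhdsWithin_iff.2 ⟨(continuousAt_inv₀ hwP.1).tendsto.mono_left
      nhdsWithin_le_nhds, ?_⟩
    filter_upwards [self_mem_nhdsWithin] with v hv
    intro h0
    exact hv (inv_injective h0)
  have h2 := h1.eventually (hrel w⁻¹ (inv_mem_ext hwP))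
  simp only [inv_inv] at h2
  have h3 : AnalyticAt ℂ (fun v => f v j - g v⁻¹ * f v k) w :=
    (hf.an j w hwP).fun_sub (hw.fun_mul (hf.an k w hwP))
  have h4 := h3.frequently_zero_iff_eventually_zero.1 (Filter.Eventually.frequently (by
    filter_upwards [h2] with v hv
    rw [hv, sub_self]))
  exact sub_eq_zero.1 h4.self_of_nhds

/-- **Essential punctured curves lie in the union of the lines.** -/
theorem spP_sub {n m N : ℕ} (hm : 2 ≤ m) (hnm : n < 2 * m) (hN : 4 * n < N + 1)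
    {a : Fin (N + 1) → ℂ} (ha : Function.Injective a) {ι : Type}
    {F : ι → MvPolynomial (Fin (N + 1)) ℂ} (hF : ∀ e, IsForm (F e))
    (hsub : Cone F ⊆ Cone (buchi a n m)) : SpP ∅ F ⊆ SpLine F := by
  rintro x ⟨hx, h⟩
  rw [pts_eq] at hx
  refine ⟨hx, fun G hG hL => ?_⟩
  rw [val_eq]
  refine h G hG ?_
  intro f hf hE z hz
  have hM : ∀ i, MeromorphicOn (fun z => f z⁻¹ i) (exD 1 one_pos).U := fun i z hz =>
    (coord_an hf i z hz).meromorphicAt
  set y : Fin (N + 1) → MK (exD 1 one_pos) := fun i => cl _ (hM i) with hy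
  have hzP : z ∈ PB 1 := mem_disc.1 hz
  have hy0 : y ≠ 0 := by
    intro h0
    have hz2 := (hf.2 z hz).1
    apply hz2
    funext i
    have h1 := cl_eq_zero.1 (congrFun h0 i) z⁻¹ (inv_mem_ext hzP)
    have h2 := (coord_an hf i z⁻¹ (inv_mem_ext hzP)).frequently_zero_iff_eventually_zero.1
      h1.frequently
    have h3 := h2.self_of_nhds
    rwa [inv_inv] at h3
  have hyF : ∀ e, val y (F e) = 0 := by
    intro e
    rw [val_cl (F e) hM (eval_mero (F e) hM), cl_eq_zero]
    intro v hv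
    have h1 : ∀ᶠ w in 𝓝 v, w ∈ Ext 1 := (Ext_open 1).mem_nhds hv
    filter_upwards [nhdsWithin_le_nhds h1] with w hw
    have hw1 : 1 < ‖w‖ := hw
    have hw0 : w ≠ 0 := by
      rintro rfl
      rw [norm_zero] at hw1
      linarith
    exact (hf.2 w⁻¹ (mem_disc.2 ⟨inv_ne_zero hw0, by
      rw [norm_inv]; exact inv_lt_one_of_one_lt₀ hw1⟩)).2.2 e
  have hne : ∃ i j, y j ≠ 0 ∧ y i / y j ∉ Minf 1 one_pos := by
    by_contra hcon
    push Not at hcon
    exact hE (extends_of_minf hf hM hcon)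
  have h1 := vanish_an hm hnm hN ha hF hsub hy0 hyF hne hL
  rw [val_cl G hM (eval_mero G hM), cl_eq_zero] at h1
  have h2 := h1 z⁻¹ (inv_mem_ext hzP)
  have h3 : AnalyticAt ℂ (fun v => MvPolynomial.eval (fun i => f v⁻¹ i) G) z⁻¹ := by
    simp only [MvPolynomial.eval_eq']
    apply Finset.analyticAt_fun_sum
    intro α _
    apply AnalyticAt.fun_mul analyticAt_const
    apply Finset.analyticAt_fun_prod
    intro j _
    exact (coord_an hf j z⁻¹ (inv_mem_ext hzP)).fun_pow _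
  have h4 := (h3.frequently_zero_iff_eventually_zero.1 h2.frequently).self_of_nhds
  rw [inv_inv] at h4
  exact h4

/-- entire curves give essential punctured curves -/
theorem spH_sub {N : ℕ} {ι : Type} (U : Set (Fin (N + 1)))
    (F : ι → MvPolynomial (Fin (N + 1)) ℂ) : SpH U F ⊆ SpP U F := by
  rintro x ⟨hx, h⟩
  refine ⟨hx, fun G hG hf => h G hG fun f hfc z => ?_⟩
  obtain ⟨h3, h4⟩ := sin_curve hfc
  obtain ⟨w, hw, hwz⟩ := sin_point z
  have := hf _ h3 h4 w hw
  rwa [hwz] at this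

/-- images of the multiplicative group -/
theorem gm_sub_h {N : ℕ} {ι : Type} (F : ι → MvPolynomial (Fin (N + 1)) ℂ) :
    SpGm F ⊆ SpH ∅ F := by
  rintro x ⟨hx, h⟩
  rw [← pts_eq] at hx
  refine ⟨hx, fun G hG hf => ?_⟩
  rw [← val_eq]
  refine h G hG fun P hP t ht => ?_
  have h1 : EntireCurve ∅ F (fun z i => (P i).eval (Complex.exp z)) := by
    refine ⟨?_, fun z => ?_, ?_⟩
    · rw [differentiable_pi]
      exact fun i => (P i).differentiable.comp Complex.differentiable_exp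
    · rw [pts_eq]
      exact ⟨hP.ne _ (Complex.exp_ne_zero z), hP.mem _ (Complex.exp_ne_zero z)⟩
    · obtain ⟨s, s', hs, hs', hlin⟩ := hP.nonconst
      refine ⟨Complex.log s, Complex.log s', fun c hc => ?_⟩
      beta_reduce at hc
      rw [Complex.exp_log hs, Complex.exp_log hs'] at hc
      rw [LinearIndependent.pair_iff] at hlin
      have := (hlin 1 (-c) (by rw [one_smul, hc, neg_smul, add_neg_cancel])).1
      exact one_ne_zero this
  have := hf _ h1 (Complex.log t)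
  simp only [Complex.exp_log ht] at this
  rw [val_eq]
  exact this

/-- **All the special sets agree.** -/
theorem special_five {n m N : ℕ} (hm : 2 ≤ m) (hnm : n < 2 * m)
    (hN : 4 * n + (n + 1) ^ 2 < 2 * (N + 1)) {a : Fin (N + 1) → ℂ} (ha : Function.Injective a)
    {ι : Type} {F : ι → MvPolynomial (Fin (N + 1)) ℂ} (hF : ∀ e, IsForm (F e))
    (hsub : Cone F ⊆ Cone (buchi a n m)) :
    SpAlg F = SpLine F ∧ SpP ∅ F = SpLine F ∧ SpH ∅ F = SpLine F ∧ SpGm F = SpLine F := by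
  obtain ⟨h1, h2⟩ := special_sub hm hnm hN ha hF hsub
  have hN' : 4 * n < N + 1 := by nlinarith [sq_nonneg ((n : ℤ) - 1), four_mul_le_sq_add (n : ℕ) 1]
  have h3 := spP_sub hm hnm hN' ha hF hsub
  have h4 := spH_sub ∅ F
  have h5 := gm_sub_h F
  rw [h2] at h5
  exact ⟨h1, Set.Subset.antisymm h3 (h5.trans h4), Set.Subset.antisymm (h4.trans h3) h5, h2⟩

end Pool.Agent.Y190.AN
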