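import Pool.Agent.Y190.AN.Ram
import Pool.Agent.Y190.BV.Rad

/-!
Polynomials over the field of meromorphic functions near infinity, whose values at constants are
`m`-th powers.
-/

set_option autoImplicit false

open Filter Topology Set Metric Polynomial

namespace Pool.Agent.Y190.AN

open FF Pool.Agent.W603.BP Pool.Agent.W601.PH Pool.Agent.Y216 Pool.Agent.Y190.BV
  Pool.Agent.W603.LV

section ram

variable {k K : Type} [Field k] [Field K] [Algebra k K]

/-- the contact of the product of the factors without constant roots -/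
theorem ram_aux [Infinite k] {n m N : ℕ} (hm : 2 ≤ m) (hN : n ≤ N) (a : Fin (N + 1) → k)
    (ha : Function.Injective a) (H : K[X]) (hH : H ≠ 0) (hdeg : H.natDegree ≤ n)
    (hpow : ∀ i, ∃ y : K, y ^ m = H.eval (algebraMap k K (a i)))
    {T T1 : Finset K[X]} {e : K[X] → ℕ} {u : K} (hu : u ≠ 0)
    (hT : ∀ p ∈ T, Irreducible p ∧ p.Monic ∧ p ∣ H ∧ 1 ≤ e p ∧ p ^ (e p) ∣ H)
    (hHT : H = C u * ∏ p ∈ T, p ^ (e p)) (hem : ∀ p ∈ T, e p < m) (hT1 : T1 ⊆ T)
    (hT2 : ∀ p ∈ T, p ∉ T1 → ∃ c : k, p.eval (algebraMap k K c) = 0)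
    (hGc : ∀ p ∈ T1, ∀ c : k, p.eval (algebraMap k K c) ≠ 0)
    (P : Place k K) (i : Fin (N + 1)) (hi : H.eval (algebraMap k K (a i)) ≠ 0) :
    ct P (∏ p ∈ T1, p) (a i) = 0 ∨ 2 ≤ ct P (∏ p ∈ T1, p) (a i) := by
  classical
  set G : K[X] := ∏ p ∈ T1, p with hG
  have hGa : ∀ i, G.eval (algebraMap k K (a i)) ≠ 0 := by
    intro i
    rw [hG, Polynomial.eval_prod]
    exact Finset.prod_ne_zero_iff.2 fun p hp => hGc p hp _
  have hpe : ∀ p ∈ T, p.eval (algebraMap k K (a i)) ≠ 0 := by
    intro p hp h0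
    apply hi
    obtain ⟨r, hr⟩ := (hT p hp).2.2.1
    rw [hr, Polynomial.eval_mul, h0, zero_mul]
  have hdivm : ∀ i, H.eval (algebraMap k K (a i)) ≠ 0 →
      (m : ℤ) ∣ P.ord (H.eval (algebraMap k K (a i))) := by
    intro i _
    obtain ⟨y, hy⟩ := hpow i
    rw [← hy, P.ord_pow]
    exact Dvd.intro _ rfl
  have hcntm : (m : ℤ) ∣ cnt P H := by
    obtain ⟨j, hj, hj2⟩ := exists_good P hH hdeg (fun i : Fin (n + 1) =>
      a (Fin.castLE (by omega) i)) (fun x y hxy => Fin.castLE_injective _ (ha hxy))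
    rw [← hj2]
    exact hdivm _ hj
  have h1 : (m : ℤ) ∣ ct P H (a i) := dvd_sub (hdivm i hi) hcntm
  have h2 : ct P H (a i) = ∑ p ∈ T, (e p : ℤ) * ct P p (a i) := by
    have hprod : (∏ p ∈ T, p ^ e p).eval (algebraMap k K (a i)) ≠ 0 := by
      rw [Polynomial.eval_prod]
      refine Finset.prod_ne_zero_iff.2 fun p hp => ?_
      rw [Polynomial.eval_pow]
      exact pow_ne_zero _ (hpe p hp)
    rw [hHT, ct_mul P (by rw [Polynomial.eval_C]; exact hu) hprod, ct_C P hu, zero_add,
      ct_prod P T _ fun p hp => by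
        rw [Polynomial.eval_pow]
        exact pow_ne_zero _ (hpe p hp)]
    exact Finset.sum_congr rfl fun p hp => ct_pow P (hpe p hp) _
  have h4 : ct P H (a i) = ∑ p ∈ T1, (e p : ℤ) * ct P p (a i) := by
    rw [h2]
    symm
    refine Finset.sum_subset hT1 fun p hp hp1 => ?_
    obtain ⟨c, hc⟩ := hT2 p hp hp1
    have hpX := eq_X_sub_C (hT p hp).1 (hT p hp).2.1 hc
    have hij : a i ≠ c := by
      intro h
      apply hpe p hp
      rw [h]; exact hc
    rw [hpX, ct_X_sub_C P hij, mul_zero]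
  have h5 : ct P G (a i) = ∑ p ∈ T1, ct P p (a i) :=
    ct_prod P T1 _ fun p hp => hpe p (hT1 hp)
  have h6 : ct P G (a i) ≤ ct P H (a i) := by
    rw [h4, h5]
    refine Finset.sum_le_sum fun p hp => ?_
    have h7 := ct_nonneg P (hpe p (hT1 hp))
    have h8 : (1 : ℤ) ≤ e p := by exact_mod_cast (hT p (hT1 hp)).2.2.2.1
    nlinarith
  have h7 : ct P H (a i) ≤ ((m : ℤ) - 1) * ct P G (a i) := by
    rw [h4, h5, Finset.mul_sum]
    refine Finset.sum_le_sum fun p hp => ?_
    have h7 := ct_nonneg P (hpe p (hT1 hp))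
    have h8 : (e p : ℤ) ≤ (m : ℤ) - 1 := by
      have := hem p (hT1 hp)
      omega
    nlinarith
  have h8 : 0 ≤ ct P G (a i) := ct_nonneg P (hGa i)
  obtain ⟨c, hc⟩ := h1
  by_contra hcon
  push Not at hcon
  have h9 : ct P G (a i) = 1 := by omega
  rw [h9, hc] at h6
  rw [h9, hc, mul_one] at h7
  have hm' : (2 : ℤ) ≤ m := by exact_mod_cast hm
  have h10 : c < 1 := by
    by_contra h
    push Not at h
    nlinarith
  have h11 : c ≤ 0 := by omega
  nlinarith

end ram

section closed

variable {K : Type} [Field K] [Algebra ℂ K] (E : IntermediateField ℂ K)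

/-- factors of polynomials over a field which is algebraically closed in `K` -/
theorem factor_mem (hE : ∀ x : K, IsAlgebraic E x → x ∈ E) {G : E[X]} (hG : G.Monic) {p : K[X]}
    (hp : p.Monic) (hd : p ∣ G.map (algebraMap E K)) : ∃ p' : E[X], p'.map (algebraMap E K) = p := by
  have h1 := integralClosure.mem_lifts_of_monic_of_dvd_map K hG hp hd
  have h2 : p ∈ lifts (algebraMap E K) := by
    rw [lifts_iff_coeff_lifts] at h1 ⊢
    intro j
    obtain ⟨c, hc⟩ := h1 j
    have h3 : IsAlgebraic E (p.coeff j) := by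
      rw [← hc]
      exact (c.2 : IsIntegral E (c : K)).isAlgebraic
    exact ⟨⟨_, hE _ h3⟩, rfl⟩
  obtain ⟨p', hp'⟩ := (mem_lifts _).1 h2
  exact ⟨p', hp'⟩

/-- interpolation -/
theorem interp_mem {q : ℕ} (a : Fin (q + 1) → ℂ) (ha : Function.Injective a) {G : K[X]}
    (hG : G.Monic) (hdeg : G.natDegree ≤ q)
    (hr : ∀ i, G.eval (algebraMap ℂ K (a i)) / G.eval (algebraMap ℂ K (a 0)) ∈ E)
    (h0 : G.eval (algebraMap ℂ K (a 0)) ≠ 0) :
    ∃ G' : E[X], G'.Monic ∧ G'.map (algebraMap E K) = G := by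
  classical
  set s := G.eval (algebraMap ℂ K (a 0)) with hs
  have hinj' : Set.InjOn a (Finset.univ : Finset (Fin (q + 1))) := fun i _ j _ hij => ha hij
  have hinj : Set.InjOn (fun i => algebraMap ℂ K (a i)) (Finset.univ : Finset (Fin (q + 1))) :=
    fun i _ j _ hij => ha ((algebraMap ℂ K).injective hij)
  let Q : E[X] := ∑ i : Fin (q + 1), C (⟨_, hr i⟩ : E) *
    (Lagrange.basis Finset.univ a i).map (algebraMap ℂ E)
  have hQ : G = C s * Q.map (algebraMap E K) := by
    refine Polynomial.eq_of_degrees_lt_of_eval_index_eq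
      (v := fun i : Fin (q + 1) => algebraMap ℂ K (a i)) Finset.univ hinj ?_ ?_ ?_
    · rw [Finset.card_univ, Fintype.card_fin]
      refine (Polynomial.degree_le_natDegree).trans_lt ?_
      exact_mod_cast Nat.lt_succ_of_le hdeg
    · rw [Finset.card_univ, Fintype.card_fin]
      refine (Polynomial.degree_mul_le _ _).trans_lt ?_
      refine lt_of_le_of_lt (add_le_add Polynomial.degree_C_le le_rfl) ?_
      rw [zero_add, Polynomial.degree_map]
      refine (Polynomial.degree_sum_le _ _).trans_lt ?_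
      rw [Finset.sup_lt_iff (WithBot.bot_lt_coe _)]
      intro i _
      refine (Polynomial.degree_mul_le _ _).trans_lt ?_
      refine lt_of_le_of_lt (add_le_add Polynomial.degree_C_le le_rfl) ?_
      rw [zero_add, Polynomial.degree_map, Lagrange.degree_basis hinj' (Finset.mem_univ i)]
      simp only [Finset.card_univ, Fintype.card_fin]
      exact_mod_cast Nat.lt_succ_self q
    · intro j _
      rw [Polynomial.eval_mul, Polynomial.eval_C, Polynomial.map_sum, Polynomial.eval_finsetSum]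
      have h3 : ∀ i : Fin (q + 1), (((C (⟨_, hr i⟩ : E) *
          (Lagrange.basis Finset.univ a i).map (algebraMap ℂ E)).map (algebraMap E K)).eval
          (algebraMap ℂ K (a j))) = if i = j then G.eval (algebraMap ℂ K (a i)) / s else 0 := by
        intro i
        rw [Polynomial.map_mul, Polynomial.map_C, Polynomial.eval_mul, Polynomial.eval_C,
          Polynomial.map_map, ← IsScalarTower.algebraMap_eq, Polynomial.eval_map_algebraMap,
          Polynomial.aeval_algebraMap_apply, Polynomial.coe_aeval_eq_eval]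
        split_ifs with h
        · rw [h, Lagrange.eval_basis_self hinj' (Finset.mem_univ j), map_one, mul_one]
          rfl
        · rw [Lagrange.eval_basis_of_ne h (Finset.mem_univ j), map_zero, mul_zero]
      simp only [h3]
      rw [Finset.sum_ite_eq' Finset.univ j, if_pos (Finset.mem_univ j), mul_div_cancel₀ _ h0]
  have hl : (Q.leadingCoeff : K) * s = 1 := by
    have h1 := congrArg Polynomial.leadingCoeff hQ
    rw [hG.leadingCoeff, Polynomial.leadingCoeff_mul, Polynomial.leadingCoeff_C,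
      Polynomial.leadingCoeff_map] at h1
    rw [h1, mul_comm]
    rfl
  have hl0 : Q.leadingCoeff ≠ 0 := by
    intro h
    rw [h] at hl
    simp at hl
  refine ⟨C Q.leadingCoeff⁻¹ * Q, ?_, ?_⟩
  · rw [Polynomial.Monic, Polynomial.leadingCoeff_mul, Polynomial.leadingCoeff_C,
      inv_mul_cancel₀ hl0]
  · rw [Polynomial.map_mul, Polynomial.map_C, map_inv₀]
    conv_rhs => rw [hQ]
    congr 2
    rw [inv_eq_iff_eq_inv]
    exact eq_inv_of_mul_eq_one_left hl

end closed

variable {r0 : ℝ} {hr0 : 0 < r0}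

/-- **Theorem A.** -/
theorem pow_Minf {n m N : ℕ} (hm : 2 ≤ m) (hN : 4 * n < N + 1) (a : Fin (N + 1) → ℂ)
    (ha : Function.Injective a) (H : (MK (exD r0 hr0))[X]) (hH : H ≠ 0) (hdeg : H.natDegree ≤ n)
    (hpow : ∀ i, ∃ y, y ^ m = H.eval (algebraMap ℂ (MK (exD r0 hr0)) (a i)))
    (hmult : ∀ p : (MK (exD r0 hr0))[X], Irreducible p → ¬ p ^ m ∣ H) :
    ∃ (u : MK (exD r0 hr0)) (H' : (Minf r0 hr0)[X]), u ≠ 0 ∧
      H = C u * H'.map (algebraMap (Minf r0 hr0) (MK (exD r0 hr0))) := by
  classical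
  have hchK : CharZero (MK (exD r0 hr0)) :=
    charZero_of_injective_algebraMap (algebraMap ℂ (MK (exD r0 hr0))).injective
  obtain ⟨T, e, u, hu, hT, hHT, hTall⟩ := factor hH
  set T1 : Finset (MK (exD r0 hr0))[X] :=
    T.filter (fun p => ∀ c : ℂ, p.eval (algebraMap ℂ (MK (exD r0 hr0)) c) ≠ 0) with hT1
  set T0 : Finset (MK (exD r0 hr0))[X] :=
    T.filter (fun p => ¬ ∀ c : ℂ, p.eval (algebraMap ℂ (MK (exD r0 hr0)) c) ≠ 0) with hT0
  set G : (MK (exD r0 hr0))[X] := ∏ p ∈ T1, p with hG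
  have hT1T : ∀ p ∈ T1, p ∈ T := fun p hp => (Finset.mem_filter.1 hp).1
  have hem : ∀ p ∈ T, e p < m := by
    intro p hp
    by_contra hcon
    push Not at hcon
    exact hmult p (hT p hp).1 ((pow_dvd_pow p hcon).trans (hT p hp).2.2.2.2)
  have hGsep : G.Separable := by
    refine Polynomial.separable_prod' ?_ ?_
    · intro p hp r hr hpr
      exact coprime_of_ne (hT p (hT1T p hp)).1 (hT r (hT1T r hr)).1 (hT p (hT1T p hp)).2.1
        (hT r (hT1T r hr)).2.1 hpr
    · intro p hp
      exact (hT p (hT1T p hp)).1.separable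
  have hGm : G.Monic := Polynomial.monic_prod_of_monic _ _ fun p hp => (hT p (hT1T p hp)).2.1
  have hG0 : G ≠ 0 := hGsep.ne_zero
  have hGa : ∀ c : ℂ, G.eval (algebraMap ℂ (MK (exD r0 hr0)) c) ≠ 0 := by
    intro c
    rw [hG, Polynomial.eval_prod]
    exact Finset.prod_ne_zero_iff.2 fun p hp => (Finset.mem_filter.1 hp).2 c
  -- the good nodes
  let I1 : Finset (Fin (N + 1)) :=
    Finset.univ.filter fun i => H.eval (algebraMap ℂ (MK (exD r0 hr0)) (a i)) ≠ 0
  let I0 : Finset (Fin (N + 1)) :=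
    Finset.univ.filter fun i => ¬ H.eval (algebraMap ℂ (MK (exD r0 hr0)) (a i)) ≠ 0
  have hI : I1.card + I0.card = N + 1 := by
    have := Finset.card_filter_add_card_filter_not (s := (Finset.univ : Finset (Fin (N + 1))))
      (fun i => H.eval (algebraMap ℂ (MK (exD r0 hr0)) (a i)) ≠ 0)
    rw [Finset.card_univ, Fintype.card_fin] at this
    exact this
  -- degrees
  have hdegT : ∑ p ∈ T, p.natDegree ≤ n := by
    have h1 : (∏ p ∈ T, p) ∣ H := by
      rw [hHT]
      refine Dvd.dvd.mul_left ?_ _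
      exact Finset.prod_dvd_prod_of_dvd _ _ fun p hp =>
        dvd_pow_self p (by have := (hT p hp).2.2.2.1; omega)
    have h2 := Polynomial.natDegree_le_of_dvd h1 hH
    rw [Polynomial.natDegree_prod _ _ fun p hp => (hT p hp).1.ne_zero] at h2
    exact h2.trans hdeg
  have hdegG : G.natDegree = ∑ p ∈ T1, p.natDegree := by
    rw [hG, Polynomial.natDegree_prod _ _ fun p hp => (hT p (hT1T p hp)).1.ne_zero]
  have hI0T : I0.card ≤ ∑ p ∈ T0, p.natDegree := by
    have h1 : I0.card ≤ T0.card := by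
      refine Finset.card_le_card_of_injOn
        (fun i => X - C (algebraMap ℂ (MK (exD r0 hr0)) (a i))) ?_ ?_
      · intro i hi
        have hi2 := (Finset.mem_filter.1 hi).2
        rw [not_not] at hi2
        refine Finset.mem_coe.2 (Finset.mem_filter.2 ⟨hTall _ (Polynomial.irreducible_X_sub_C _)
          (Polynomial.monic_X_sub_C _) (Polynomial.dvd_iff_isRoot.2 hi2), ?_⟩)
        push Not
        exact ⟨a i, by simp⟩
      · intro i _ j _ hij
        have h2 := Polynomial.C_injective (sub_right_injective hij)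
        exact ha ((algebraMap ℂ (MK (exD r0 hr0))).injective h2)
    refine h1.trans ?_
    rw [Finset.card_eq_sum_ones]
    refine Finset.sum_le_sum fun p hp => ?_
    exact (hT p (Finset.mem_filter.1 hp).1).1.natDegree_pos
  have hsplitT : ∑ p ∈ T1, p.natDegree + ∑ p ∈ T0, p.natDegree = ∑ p ∈ T, p.natDegree :=
    Finset.sum_filter_add_sum_filter_not _ _ _
  have hdz : G.natDegree + I0.card ≤ n := by omega
  obtain ⟨q, hq⟩ : ∃ q, I1.card = q + 1 := ⟨I1.card - 1, by omega⟩
  let ee : Fin (q + 1) ≃ I1 := (Fintype.equivFinOfCardEq (by rw [Fintype.card_coe]; exact hq)).symm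
  have hee : ∀ i, H.eval (algebraMap ℂ (MK (exD r0 hr0)) (a (ee i))) ≠ 0 := fun i =>
    (Finset.mem_filter.1 (ee i).2).2
  have haee : Function.Injective fun i => a (ee i) := fun i j hij =>
    ee.injective (Subtype.ext (ha hij))
  -- the polynomial `G`
  have hGM : ∃ G' : (Minf r0 hr0)[X], G'.Monic ∧
      G'.map (algebraMap (Minf r0 hr0) (MK (exD r0 hr0))) = G := by
    by_cases hd : G.natDegree = 0
    · have h1 := Polynomial.eq_one_of_monic_natDegree_zero hGm hd
      exact ⟨1, Polynomial.monic_one, by rw [Polynomial.map_one, h1]⟩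
    · refine interp_mem (Minf r0 hr0) (fun i => a (ee i)) haee hGm (by omega) (fun i => ?_)
        (hGa _)
      refine ratios_Minf (d := G.natDegree) rfl (by omega) hGsep.squarefree hGa
        (fun i => a (ee i)) haee (by omega) (fun z hz i => ?_) i
      exact ram_aux hm (by omega : n ≤ N) a ha H hH hdeg hpow hu hT hHT hem (Finset.filter_subset _ _)
        (fun p hp hp1 => by
          by_contra hcon
          push Not at hcon
          exact hp1 (Finset.mem_filter.2 ⟨hp, hcon⟩))
        (fun p hp => (Finset.mem_filter.1 hp).2) (PL hz) (ee i) (hee i)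
  obtain ⟨G', hG'm, hG'⟩ := hGM
  have hfac : ∀ p ∈ T, ∃ p' : (Minf r0 hr0)[X],
      p'.map (algebraMap (Minf r0 hr0) (MK (exD r0 hr0))) = p := by
    intro p hp
    by_cases h : ∀ c : ℂ, p.eval (algebraMap ℂ (MK (exD r0 hr0)) c) ≠ 0
    · refine factor_mem (Minf r0 hr0) (fun x hx => Minf_closed hx) hG'm (hT p hp).2.1 ?_
      rw [hG']
      exact Finset.dvd_prod_of_mem _ (Finset.mem_filter.2 ⟨hp, h⟩)
    · push Not at h
      obtain ⟨c, hc⟩ := h
      refine ⟨X - C (algebraMap ℂ (Minf r0 hr0) c), ?_⟩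
      rw [Polynomial.map_sub, Polynomial.map_X, Polynomial.map_C,
        ← IsScalarTower.algebraMap_apply]
      exact (eq_X_sub_C (hT p hp).1 (hT p hp).2.1 hc).symm
  choose! p' hp' using hfac
  refine ⟨u, ∏ p ∈ T, p' p ^ e p, hu, ?_⟩
  rw [hHT, Polynomial.map_prod]
  congr 1
  refine Finset.prod_congr rfl fun p hp => ?_
  rw [Polynomial.map_pow, hp' p hp]

end Pool.Agent.Y190.AN
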