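import Pool.Agent.Y190.AN.Wei
import Pool.Agent.Y190.AN.MF

/-!
Vectors of meromorphic functions near infinity without common zeros and poles.
-/

set_option autoImplicit false

open Filter Topology Set Metric

namespace Pool.Agent.Y190.AN

open Pool.Agent.W603.BP Pool.Agent.W601.PH

/-- the exterior of a disc -/
def exD (r : ℝ) (hr : 0 < r) : Dm := ⟨Ext r, Ext_open r, ⟨Ext_nonempty r, Ext_preconn hr⟩⟩

/-- zeros and poles are locally finite -/
theorem ord_finite {r0 r1 : ℝ} (h01 : r0 < r1) {f : ℂ → ℂ} (hf : MeromorphicOn f (Ext r0))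
    (ρ : ℝ) : {z : ℂ | r1 ≤ ‖z‖ ∧ ‖z‖ ≤ ρ ∧ (meromorphicOrderAt f z).untop₀ ≠ 0}.Finite := by
  set A : Set ℂ := {z : ℂ | r1 ≤ ‖z‖ ∧ ‖z‖ ≤ ρ} with hA
  have hAc : IsCompact A := by
    have h1 : A = closedBall 0 ρ ∩ {z : ℂ | r1 ≤ ‖z‖} := by
      ext z
      simp only [hA, mem_inter_iff, mem_closedBall_zero_iff, Set.mem_ofPred_eq]
      exact and_comm
    rw [h1]
    exact (isCompact_closedBall 0 ρ).inter_right (isClosed_le continuous_const continuous_norm)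
  have hAf : MeromorphicOn f A := hf.mono_set fun z hz => lt_of_lt_of_le h01 hz.1
  refine ((MeromorphicOn.divisor f A).finiteSupport hAc).subset ?_
  rintro z ⟨h1, h2, h3⟩
  rw [Function.mem_support, MeromorphicOn.divisor_apply hAf ⟨h1, h2⟩]
  exact h3

theorem order_nat {h : ℂ → ℂ} (hh : Differentiable ℂ h) {μ : ℂ → ℕ}
    (hμ : ∀ z, analyticOrderAt h z = μ z) (z : ℂ) : meromorphicOrderAt h z = ((μ z : ℤ) : WithTop ℤ) := by
  rw [(hh.analyticAt z).meromorphicOrderAt_eq, hμ]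
  rfl

/-- **Primitive vectors.** -/
theorem primitive {r0 : ℝ} (hr0 : 0 < r0) {d : ℕ} (x : Fin (d + 1) → MK (exD r0 hr0))
    (hx : x ≠ 0) : ∃ (r1 : ℝ) (_ : r0 < r1) (s : MK (exD r0 hr0)) (G : ℂ → Fin (d + 1) → ℂ)
      (hG : ∀ j, MeromorphicOn (fun z => G z j) (exD r0 hr0).U), s ≠ 0 ∧
      (∀ z ∈ Ext r1, AnA G z) ∧ (∀ z ∈ Ext r1, G z ≠ 0) ∧
      ∀ j, x j = s * cl (fun z => G z j) (hG j) := by
  classical
  have hrep : ∀ j, ∃ f, ∃ hf : MeromorphicOn f (exD r0 hr0).U, cl f hf = x j := fun j =>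
    cl_surj (x j)
  choose f hf hfx using hrep
  have hU : (exD r0 hr0).U = Ext r0 := rfl
  set r1 : ℝ := r0 + 1 with hr1
  have h01 : r0 < r1 := by linarith
  obtain ⟨j1, hj1⟩ := Function.ne_iff.1 hx
  -- the minimal orders
  have hμ : ∀ z : ℂ, ∃ μ : ℤ, z ∈ Ext r0 →
      (∀ j, x j ≠ 0 → μ ≤ (meromorphicOrderAt (f j) z).untop₀) ∧
        ∃ j, x j ≠ 0 ∧ (meromorphicOrderAt (f j) z).untop₀ = μ := by
    intro z
    obtain ⟨j0, hj0, hmin⟩ := Finset.exists_min_image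
      (Finset.univ.filter fun j => x j ≠ 0) (fun j => (meromorphicOrderAt (f j) z).untop₀)
      ⟨j1, Finset.mem_filter.2 ⟨Finset.mem_univ _, hj1⟩⟩
    exact ⟨_, fun _ => ⟨fun j hj => hmin j (Finset.mem_filter.2 ⟨Finset.mem_univ _, hj⟩), j0,
      (Finset.mem_filter.1 hj0).2, rfl⟩⟩
  choose μ hμ using hμ
  have hfin : ∀ ρ : ℝ, {z : ℂ | r1 ≤ ‖z‖ ∧ ‖z‖ ≤ ρ ∧ μ z ≠ 0}.Finite := by
    intro ρ
    have h1 : (⋃ j, {z : ℂ | r1 ≤ ‖z‖ ∧ ‖z‖ ≤ ρ ∧
        (meromorphicOrderAt (f j) z).untop₀ ≠ 0}).Finite :=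
      Set.finite_iUnion fun j => ord_finite h01 (hf j) ρ
    refine h1.subset ?_
    rintro z ⟨h2, h3, h4⟩
    obtain ⟨h5, j, hj, hj'⟩ := hμ z (lt_of_lt_of_le h01 h2)
    rw [mem_iUnion]
    exact ⟨j, h2, h3, by rw [hj']; exact h4⟩
  obtain ⟨hp, hpd, hpo⟩ := weier (fun z => if r1 ≤ ‖z‖ then (μ z).toNat else 0) fun ρ => by
    refine (hfin ρ).subset ?_
    rintro z ⟨h2, h3⟩
    have h4 : r1 ≤ ‖z‖ := by
      by_contra hcon
      exact h3 (if_neg hcon)
    rw [if_pos h4] at h3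
    exact ⟨h4, h2, fun h0 => h3 (by rw [h0]; rfl)⟩
  obtain ⟨hm, hmd, hmo⟩ := weier (fun z => if r1 ≤ ‖z‖ then (-μ z).toNat else 0) fun ρ => by
    refine (hfin ρ).subset ?_
    rintro z ⟨h2, h3⟩
    have h4 : r1 ≤ ‖z‖ := by
      by_contra hcon
      exact h3 (if_neg hcon)
    rw [if_pos h4] at h3
    exact ⟨h4, h2, fun h0 => h3 (by rw [h0]; rfl)⟩
  set h : ℂ → ℂ := hp / hm with hh
  have hpM : ∀ z, MeromorphicAt hp z := fun z => (hpd.analyticAt z).meromorphicAt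
  have hmM : ∀ z, MeromorphicAt hm z := fun z => (hmd.analyticAt z).meromorphicAt
  have hhM : MeromorphicOn h (exD r0 hr0).U := fun z _ => (hpM z).div (hmM z)
  have hord : ∀ z, r1 ≤ ‖z‖ → meromorphicOrderAt h z = (μ z : WithTop ℤ) := by
    intro z hz
    rw [hh, meromorphicOrderAt_div (hpM z) (hmM z), order_nat hpd hpo, order_nat hmd hmo,
      if_pos hz, if_pos hz]
    have e : (((μ z).toNat : ℤ) : WithTop ℤ) - (((-μ z).toNat : ℤ) : WithTop ℤ) =
        ((((μ z).toNat : ℤ) - ((-μ z).toNat : ℤ) : ℤ) : WithTop ℤ) := rfl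
    rw [e]
    congr 1
    omega
  have hh0 : cl h hhM ≠ 0 := by
    intro h0
    obtain ⟨z, hz⟩ := Ext_nonempty r1
    have h1 := cl_eq_zero.1 h0 z (Ext_mono h01.le hz)
    rw [← meromorphicOrderAt_eq_top_iff, hord z (le_of_lt hz)] at h1
    exact WithTop.coe_ne_top h1
  have hq : ∀ j, MeromorphicOn (f j / h) (exD r0 hr0).U := fun j => (hf j).div hhM
  set G : ℂ → Fin (d + 1) → ℂ := fun z j => toMeromorphicNFOn (f j / h) (exD r0 hr0).U z with hGd
  have hNF : ∀ j, MeromorphicNFOn (fun z => G z j) (exD r0 hr0).U := fun j =>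
    meromorphicNFOn_toMeromorphicNFOn (f j / h) (exD r0 hr0).U
  have hGM : ∀ j, MeromorphicOn (fun z => G z j) (exD r0 hr0).U := fun j =>
    (hNF j).meromorphicOn
  have hGord : ∀ j, ∀ z ∈ (exD r0 hr0).U, meromorphicOrderAt (fun z => G z j) z =
      meromorphicOrderAt (f j) z - meromorphicOrderAt h z := by
    intro j z hz
    have h1 := meromorphicOrderAt_toMeromorphicNFOn (hq j) hz
    change meromorphicOrderAt (toMeromorphicNFOn (f j / h) (exD r0 hr0).U) z = _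
    rw [h1, meromorphicOrderAt_div (hf j z hz) (hhM z hz)]
  refine ⟨r1, h01, cl h hhM, G, hGM, hh0, ?_, ?_, ?_⟩
  · intro z hz j
    have hzU : z ∈ (exD r0 hr0).U := Ext_mono h01.le hz
    have hz1 : r1 ≤ ‖z‖ := le_of_lt hz
    rw [← (hNF j hzU).meromorphicOrderAt_nonneg_iff_analyticAt, hGord j z hzU, hord z hz1]
    by_cases hxj : x j = 0
    · have h1 : meromorphicOrderAt (f j) z = ⊤ := by
        rw [← hfx j] at hxj
        exact meromorphicOrderAt_eq_top_iff.2 (cl_eq_zero.1 hxj z hzU)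
      rw [h1]
      exact le_top
    · have h1 := (hμ z hzU).1 j hxj
      have h2 : meromorphicOrderAt (f j) z ≠ ⊤ :=
        cl_ne_zero (hf := hf j) (by rw [hfx]; exact hxj) z hzU
      obtain ⟨a, ha⟩ := WithTop.ne_top_iff_exists.1 h2
      rw [← ha] at h1 ⊢
      have e : (a : WithTop ℤ) - (μ z : WithTop ℤ) = ((a - μ z : ℤ) : WithTop ℤ) := rfl
      rw [e]
      have h3 : μ z ≤ a := h1
      exact_mod_cast (sub_nonneg.2 h3)
  · intro z hz h0
    have hzU : z ∈ (exD r0 hr0).U := Ext_mono h01.le hz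
    have hz1 : r1 ≤ ‖z‖ := le_of_lt hz
    obtain ⟨-, j, hj, hj'⟩ := hμ z hzU
    have h2 : meromorphicOrderAt (f j) z ≠ ⊤ :=
      cl_ne_zero (hf := hf j) (by rw [hfx]; exact hj) z hzU
    have h3 : meromorphicOrderAt (fun z => G z j) z = 0 := by
      rw [hGord j z hzU, hord z hz1]
      obtain ⟨a, ha⟩ := WithTop.ne_top_iff_exists.1 h2
      rw [← ha] at hj' ⊢
      have h4 : a = μ z := hj'
      rw [h4]
      have e : (μ z : WithTop ℤ) - (μ z : WithTop ℤ) = ((μ z - μ z : ℤ) : WithTop ℤ) := rfl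
      rw [e, sub_self]
      rfl
    rw [(hNF j hzU).meromorphicOrderAt_eq_zero_iff] at h3
    exact h3 (congrFun h0 j)
  · intro j
    rw [cl_mul, ← hfx j, cl_eq]
    intro z hz
    have h1 := (hq j).toMeromorphicNFOn_eq_self_on_nhdsNE hz
    have h2 := (meromorphicOrderAt_ne_top_iff_eventually_ne_zero (hhM z hz)).1
      (cl_ne_zero hh0 z hz)
    filter_upwards [h1, h2] with w h3 h4
    change f j w = h w * toMeromorphicNFOn (f j / h) (exD r0 hr0).U w
    rw [h3, Pi.div_apply]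
    field_simp

end Pool.Agent.Y190.AN
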