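import Pool.Agent.Y190.AN.RsE
import Pool.Agent.Y190.AN.Inf
import Pool.Agent.Y190.BV.Cont

/-!
Squarefree polynomials over the field of meromorphic functions near infinity, without constant
roots, which are ramified over sufficiently many constants.
-/

set_option autoImplicit false

open Filter Topology Set Metric Polynomial

namespace Pool.Agent.Y190.AN

open FF Pool.Agent.W603.BP Pool.Agent.W601.PH Pool.Agent.Y216 Pool.Agent.Y190.BV
  Pool.Agent.W603.LV
open Pool.Agent.W601.SM (dF)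

theorem Rs_map' {n : ℕ} {R S : Type*} [CommRing R] [CommRing S] (φ : R →+* S)
    (x y : Fin (n + 1) → R) : φ (Rs x y) = Rs (fun j => φ (x j)) (fun j => φ (y j)) := by
  unfold Rs
  rw [← map_pol, ← map_pol, resultant_map_map]

section

variable {D : Dm}

theorem cl_lin {d : ℕ} (g : Fin d → ℂ → ℂ) (hg : ∀ j, MeromorphicOn (g j) D.U)
    (b : Fin d → ℂ) (h : MeromorphicOn (fun z => ∑ j, b j * g j z) D.U) :
    cl (fun z => ∑ j, b j * g j z) h = ∑ j, algebraMap ℂ (MK D) (b j) * cl (g j) (hg j) := by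
  let g' : Fin d → MS D := fun j => ⟨g j, hg j⟩
  have e1 : (∑ j, algebraMap ℂ (MS D) (b j) * g' j : MS D).1 = fun z => ∑ j, b j * g j z := by
    funext w
    rw [AddSubmonoidClass.coe_finsetSum, Finset.sum_apply]
    rfl
  have e2 : cl (fun z => ∑ j, b j * g j z) h =
      Ideal.Quotient.mk (MJ D) (∑ j, algebraMap ℂ (MS D) (b j) * g' j) := by
    change _ = cl (∑ j, algebraMap ℂ (MS D) (b j) * g' j : MS D).1 _
    congr 1
    exact e1.symm
  rw [e2, map_sum]
  exact Finset.sum_congr rfl fun j _ => map_mul _ _ _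

/-- the resultant with the derivative -/
theorem cl_Pf {d : ℕ} (G : ℂ → Fin (d + 1) → ℂ)
    (hG : ∀ j, MeromorphicOn (fun z => G z j) D.U) :
    ∃ h : MeromorphicOn (Pf G) D.U, cl (Pf G) h =
      Rs (fun j => cl (fun z => G z j) (hG j)) (fun j => MDer D (cl (fun z => G z j) (hG j))) := by
  let g' : Fin (d + 1) → MS D := fun j => ⟨fun z => G z j, hG j⟩
  let dg' : Fin (d + 1) → MS D := fun j => ⟨deriv fun z => G z j, (hG j).deriv⟩
  have e1 : (Rs g' dg').1 = Pf G := by
    funext w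
    let φ : MS D →+* ℂ := (Pi.evalRingHom (fun _ : ℂ => ℂ) w).comp (MS D).val.toRingHom
    have h1 := Rs_map' φ g' dg'
    exact h1
  have hM : MeromorphicOn (Pf G) D.U := e1 ▸ (Rs g' dg').2
  refine ⟨hM, ?_⟩
  have e2 : cl (Pf G) hM = Ideal.Quotient.mk (MJ D) (Rs g' dg') := by
    change _ = cl (Rs g' dg').1 _
    congr 1
    exact e1.symm
  rw [e2, Rs_map']
  congr 1
  funext j
  rw [MDer_apply, MD_cl]
  rfl

theorem ge_cl {g : ℂ → ℂ} {hg : MeromorphicOn g D.U} {z : ℂ} (hz : z ∈ D.U)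
    (han : AnalyticAt ℂ g z) : Ge (PL hz) 0 (cl g hg) := by
  by_cases h0 : cl g hg = 0
  · exact Or.inl h0
  · right
    rw [PL_cl hg hz]
    have h1 := cl_ne_zero h0 z hz
    have h2 := han.meromorphicOrderAt_nonneg
    obtain ⟨a, ha⟩ := WithTop.ne_top_iff_exists.1 h1
    rw [← ha] at h2 ⊢
    exact_mod_cast h2

theorem ord_cl {g : ℂ → ℂ} {hg : MeromorphicOn g D.U} {z : ℂ} (hz : z ∈ D.U)
    (han : AnalyticAt ℂ g z) {a : ℕ} (ha : analyticOrderAt g z = a) :
    (PL hz).ord (cl g hg) = a := by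
  rw [PL_cl hg hz, han.meromorphicOrderAt_eq, ha]
  rfl

end

variable {r0 : ℝ} {hr0 : 0 < r0}

/-- **Ramified polynomials are meromorphic at infinity.** -/
theorem ratios_Minf {R : (MK (exD r0 hr0))[X]} {d : ℕ} (hdeg : R.natDegree = d) (hd : 1 ≤ d)
    (hsq : Squarefree R) (hroot : ∀ b : ℂ, R.eval (algebraMap ℂ (MK (exD r0 hr0)) b) ≠ 0)
    {p : ℕ} (a : Fin (p + 1) → ℂ) (ha : Function.Injective a) (hp : 4 * d < p + 1)
    (hct : ∀ (z : ℂ) (hz : z ∈ (exD r0 hr0).U) (i : Fin (p + 1)),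
      ct (PL hz) R (a i) = 0 ∨ 2 ≤ ct (PL hz) R (a i)) (i : Fin (p + 1)) :
    R.eval (algebraMap ℂ (MK (exD r0 hr0)) (a i)) /
      R.eval (algebraMap ℂ (MK (exD r0 hr0)) (a 0)) ∈ Minf r0 hr0 := by
  classical
  have hR0 : R ≠ 0 := by
    rintro rfl
    exact hroot 0 (eval_zero)
  let x : Fin (d + 1) → MK (exD r0 hr0) := fun j => R.coeff j
  have hpx : R = pol x := eq_pol hdeg.le
  have hxl : x (Fin.last d) ≠ 0 := by
    change R.coeff ((Fin.last d : Fin (d + 1)) : ℕ) ≠ 0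
    rw [Fin.val_last, ← hdeg, coeff_natDegree]
    exact leadingCoeff_ne_zero.2 hR0
  obtain ⟨r1, h01, s, G, hG, hs, hGan, hGnz, hxG⟩ := primitive hr0 x fun h0 =>
    hxl (congrFun h0 _)
  let y : Fin (d + 1) → MK (exD r0 hr0) := fun j => cl (fun z => G z j) (hG j)
  have hxy : x = fun j => s * y j := funext hxG
  have hRy : R = C s * pol y := by rw [hpx, hxy, pol_smul]
  have hyl : y (Fin.last d) ≠ 0 := by
    intro h0
    apply hxl
    rw [hxG]
    exact mul_eq_zero_of_right s h0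
  have hysq : Squarefree (pol y) := by
    rw [hRy] at hsq
    exact hsq.of_mul_right
  have hyroot : ∀ b : ℂ, (pol y).eval (algebraMap ℂ (MK (exD r0 hr0)) b) ≠ 0 := by
    intro b h0
    apply hroot b
    rw [hRy, eval_mul, h0, mul_zero]
  -- the linear forms
  let u : Fin (p + 1) → ℂ := fun _ => 1
  have huv : ∀ i j, i ≠ j → u i * a j ≠ u j * a i := by
    intro i j hij h
    simp only [u, one_mul] at h
    exact hij (ha h.symm)
  have hUM : ∀ i, MeromorphicOn (Uf u a G i) (exD r0 hr0).U := by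
    intro i
    have h1 : MeromorphicOn (fun z => ∑ l, rnc d u a i l * G z l) (exD r0 hr0).U :=
      MeromorphicOn.fun_sum fun l => (MeromorphicOn.const _).fun_mul (hG l)
    exact h1
  have hUcl : ∀ i, cl (Uf u a G i) (hUM i) =
      (pol y).eval (algebraMap ℂ (MK (exD r0 hr0)) (a i)) := by
    intro i
    have h1 := cl_lin (fun l z => G z l) hG (rnc d u a i) (hUM i)
    refine h1.trans ?_
    unfold pol
    rw [eval_finsetSum]
    refine Finset.sum_congr rfl fun l _ => ?_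
    rw [eval_mul, eval_C, eval_pow, eval_X, ← map_pow, mul_comm]
    have h2 : rnc d u a i l = a i ^ (l : ℕ) := by
      simp [rnc, u]
    rw [h2]
  have hUne : ∀ i, cl (Uf u a G i) (hUM i) ≠ 0 := fun i => by
    rw [hUcl]
    exact hyroot (a i)
  have hr1 : 0 < r1 := hr0.trans h01
  have hsubU : ∀ z ∈ Ext r1, z ∈ (exD r0 hr0).U := fun z hz => Ext_mono h01.le hz
  have hne_of : ∀ (f : ℂ → ℂ) (hf : MeromorphicOn f (exD r0 hr0).U), cl f hf ≠ 0 →
      ∃ z ∈ Ext r1, f z ≠ 0 := by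
    intro f hf hf0
    by_contra hcon
    push Not at hcon
    obtain ⟨z1, hz1⟩ := Ext_nonempty r1
    apply hf0
    rw [cl_eq_zero]
    refine zero_all hf (hsubU z1 hz1) ?_
    filter_upwards [nhdsWithin_le_nhds ((Ext_open r1).mem_nhds hz1)] with w hw
    exact hcon w hw
  obtain ⟨hPM, hPcl⟩ := cl_Pf G hG
  have hPne : cl (Pf G) hPM ≠ 0 := by
    rw [hPcl]
    exact res_ne_zero' (D := MDer (exD r0 hr0)) (fun x hx => MDer_eq_zero hx) hyl hysq hyroot
  -- the orders
  have hcnt : ∀ z (hz : z ∈ Ext r1), cnt (PL (hsubU z hz)) R = (PL (hsubU z hz)).ord s := by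
    intro z hz
    apply cnt_unique
    · intro j
      rw [hRy, coeff_C_mul]
      by_cases hj : j < d + 1
      · rw [coeff_pol_lt _ hj]
        have h1 : Ge (PL (hsubU z hz)) 0 (y ⟨j, hj⟩) := ge_cl _ (hGan z hz ⟨j, hj⟩)
        have h2 : Ge (PL (hsubU z hz)) ((PL (hsubU z hz)).ord s) s := Or.inr le_rfl
        have := h2.mul h1
        rwa [add_zero] at this
      · rw [coeff_pol_ge _ (by omega), mul_zero]
        exact Ge.zero
    · obtain ⟨j, hj⟩ := Function.ne_iff.1 (hGnz z hz)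
      have h1 : analyticOrderAt (fun z => G z j) z = ((0 : ℕ) : ℕ∞) := by
        rw [Nat.cast_zero, (hGan z hz j).analyticOrderAt_eq_zero]
        exact hj
      have h2 : (PL (hsubU z hz)).ord (y j) = 0 := by
        have := ord_cl (hg := hG j) (hsubU z hz) (hGan z hz j) h1
        exact_mod_cast this
      have h3 : y j ≠ 0 := by
        intro h0
        have h4 := cl_eq_zero.1 h0 z (hsubU z hz)
        have h5 : ∀ᶠ w in 𝓝[≠] z, G w j ≠ 0 :=
          nhdsWithin_le_nhds ((hGan z hz j).continuousAt.eventually_ne hj)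
        obtain ⟨w, hw1, hw2⟩ := (h4.and h5).exists
        exact hw2 hw1
      refine ⟨(j : ℕ), ?_, ?_⟩
      · rw [hRy, coeff_C_mul, coeff_pol]
        exact mul_ne_zero hs h3
      · rw [hRy, coeff_C_mul, coeff_pol, (PL (hsubU z hz)).ord_mul hs h3, h2, add_zero]
  have hord : ∀ z (hz : z ∈ Ext r1) i (b : ℕ), analyticOrderAt (Uf u a G i) z = b →
      ct (PL (hsubU z hz)) R (a i) = b := by
    intro z hz i b hb
    unfold ct
    rw [hcnt z hz, hRy, eval_mul, eval_C, ← hUcl, (PL (hsubU z hz)).ord_mul hs (hUne i),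
      ord_cl (hg := hUM i) (hsubU z hz) (evi_an (hGan z hz) i) hb]
    ring
  obtain ⟨Q, hQ, R0, hQ'⟩ := core_rs (n := d) huv hr1 (A := 2) (fun _ => 1)
    (fun _ => by norm_num) (by simp; omega) hGan hGnz (fun i => hne_of _ (hUM i) (hUne i))
    (hne_of _ hPM hPne) (by
      intro z hz b hb
      rw [Finset.mul_sum]
      refine Finset.sum_le_sum fun i _ => ?_
      have h1 := hct z (hsubU z hz) i
      rw [hord z hz i (b i) (hb i)] at h1
      omega) i
  have e : R.eval (algebraMap ℂ (MK (exD r0 hr0)) (a i)) /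
      R.eval (algebraMap ℂ (MK (exD r0 hr0)) (a 0)) =
      cl (Uf u a G i / Uf u a G 0) ((hUM i).div (hUM 0)) := by
    rw [← cl_div (hUM i) (hUM 0), hUcl, hUcl, hRy, eval_mul, eval_mul, eval_C, eval_C,
      mul_div_mul_left _ _ hs]
  rw [e]
  refine mem_of_large (R := Q) (R0 := max R0 r0) hQ fun z hz => ?_
  have hzR : R0 < ‖z‖ := lt_of_le_of_lt (le_max_left _ _) hz
  have hzU : z ∈ (exD r0 hr0).U := lt_of_le_of_lt (le_max_right R0 r0) hz
  have h2 := (meromorphicOrderAt_ne_top_iff_eventually_ne_zero (hUM 0 z hzU)).1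
    (cl_ne_zero (hUne 0) z hzU)
  have h3 : ∀ᶠ w in 𝓝 z, R0 < ‖w‖ := (continuous_norm.tendsto z).eventually_const_lt hzR
  filter_upwards [h2, nhdsWithin_le_nhds h3] with w hw1 hw2
  rw [Pi.div_apply, hQ' w hw2, mul_div_cancel_right₀ _ hw1]

end Pool.Agent.Y190.AN
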