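import Pool.Agent.Y190.AN.Rsl

/-!
Curves near infinity in the space of polynomials.
-/

set_option autoImplicit false

namespace Pool.Agent.Y190.AN

open Matrix Module Filter Metric Real Set Topology
open Pool.Agent.H159R3.NV Pool.Agent.W602.NC Pool.Agent.W602.TL Pool.Agent.W601.SM
  Pool.Agent.W601.PH Pool.Agent.Y216 Pool.Agent.W603.BP

variable {n p : ℕ} {u v : Fin (p + 1) → ℂ}

/-- The core statement: a curve near infinity in the space of polynomials, which is sufficiently
ramified and for which the resultant with the derivative does not vanish, is meromorphic at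
infinity. -/
theorem core_rs (huv : ∀ i j, i ≠ j → u i * v j ≠ u j * v i) {r0 : ℝ} (hr0 : 0 < r0) {A : ℕ}
    (c : Fin (p + 1) → ℕ) (hcA : ∀ i, c i ≤ A) (hn : 2 * n * A < ∑ i, c i)
    {F : ℂ → Fin (n + 1) → ℂ} (hF : ∀ z ∈ Ext r0, AnA F z) (hnz : ∀ z ∈ Ext r0, F z ≠ 0)
    (hne : ∀ i, ∃ z ∈ Ext r0, Uf u v F i z ≠ 0) (hPne : ∃ z ∈ Ext r0, Pf F z ≠ 0)
    (hM : ∀ z ∈ Ext r0, ∀ a : Fin (p + 1) → ℕ,
      (∀ i, analyticOrderAt (Uf u v F i) z = a i) → ∑ i, c i * a i ≤ A * ∑ i, (a i - 1))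
    (j : Fin (p + 1)) :
    ∃ R : ℂ → ℂ, MeromorphicAt (fun w => R w⁻¹) 0 ∧ ∃ R0 : ℝ, ∀ z, R0 < ‖z‖ →
      Uf u v F j z = R z * Uf u v F 0 z := by
  classical
  have hUan : ∀ i, AnalyticOnNhd ℂ (Uf u v F i) (Ext r0) := fun i z hz => evi_an (hF z hz) i
  have hqn : n + n ≤ p + 1 := by
    have h1 : ∑ i, c i ≤ (p + 1) * A := by
      calc ∑ i, c i ≤ ∑ _i : Fin (p + 1), A := Finset.sum_le_sum fun i _ => hcA i
        _ = (p + 1) * A := by simp
    have h2 : 2 * n * A < (p + 1) * A := lt_of_lt_of_le hn h1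
    have := lt_of_mul_lt_mul_right h2 (Nat.zero_le _)
    omega
  set P : ℂ → ℂ := Pf F with hP
  have hPan : AnalyticOnNhd ℂ P (Ext r0) := fun z hz => Pf_an (hF z hz)
  obtain ⟨z1, hz1, hGne⟩ := hPne
  -- the annulus
  let gg : Option (Fin (p + 1)) → ℂ → ℂ := fun o => o.elim P fun i => Uf u v F i
  have hgg1 : ∀ o ∈ (Finset.univ : Finset (Option (Fin (p + 1)))),
      AnalyticOnNhd ℂ (gg o) (Ext r0) := by
    rintro (_ | i) _
    · exact hPan
    · exact hUan i
  have hgg2 : ∀ o ∈ (Finset.univ : Finset (Option (Fin (p + 1)))), ∃ z ∈ Ext r0, gg o z ≠ 0 := by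
    rintro (_ | i) _
    · exact ⟨z1, hz1, hGne⟩
    · exact hne i
  obtain ⟨hG1, hG2⟩ := prod_ne hr0 Finset.univ gg hgg1 hgg2
  set r' : ℝ := max r0 1 with hr'
  have hr'0 : 0 < r' := lt_of_lt_of_le hr0 (le_max_left _ _)
  have hG3 := ne_on_smaller hr0 (le_max_left r0 1) hG1 hG2
  obtain ⟨r1, r2, h01, h12, hfree⟩ := annulus hr'0 (hG1.mono (Ext_mono (le_max_left r0 1))) hG3
  obtain ⟨a, h1a, ha2⟩ := exists_between h12
  have hr1 : 1 < r1 := lt_of_le_of_lt (le_max_right _ _) h01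
  have hr01 : r0 < r1 := lt_of_le_of_lt (le_max_left _ _) h01
  have ha1 : 1 ≤ a := by linarith
  have ha0 : 0 < a := by linarith
  have hra : r0 ≤ a := by linarith
  have hEa : Ext a ⊆ Ext r0 := Ext_mono hra
  have hbv := fun o => birkhoff (F := gg o) (by linarith : (0 : ℝ) ≤ r1) h1a ha2
    ((hgg1 o (Finset.mem_univ _)).differentiableOn.mono (Ext_mono hr01.le)) (fun z h1 h2 =>
      Finset.prod_ne_zero_iff.mp (hfree z h1 h2) o (Finset.mem_univ o))
  choose k q G hq hG hG0 hvG using hbv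
  let H : Option (Fin (p + 1)) → ℂ → ℂ := fun o z => z ^ k o * Complex.exp (q o z⁻¹)
  have hH : ∀ o, Tame a (H o) := fun o => tame_of ha1 (k o) (hq o)
  have hvH : ∀ o, ∀ z ∈ Ext a, gg o z = H o z * G o z := fun o z hz => hvG o z hz
  obtain ⟨C0, hC0, κ0, hbd, hosc⟩ := tame_uni H hH
  obtain ⟨C1, hC1, hpt⟩ := Pf_point_at (n := n) huv hqn
  -- the entire functions
  let g : Fin (p + 1) → ℂ → ℂ := fun i => G (some i)
  have hg : ∀ i, Differentiable ℂ (g i) := fun i => hG _
  have hg0 : ∀ i, g i 0 ≠ 0 := fun i => hG0 _ 0 (by simpa using ha0.le)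
  have hUg : ∀ i, ∀ z ∈ Ext a, Uf u v F i z = H (some i) z * g i z := fun i z hz => hvH (some i) z hz
  have hPg : ∀ z ∈ Ext a, P z = H none z * G none z := fun z hz => hvH none z hz
  obtain ⟨κ, hκ0, hκ⟩ : ∃ κ, 0 < κ ∧ κ + 2 * n * A = ∑ i, c i :=
    ⟨∑ i, c i - 2 * n * A, by omega, by omega⟩
  set B : ℝ := C0 * C0 * Real.exp 1 with hB
  have hB1 : 1 ≤ B := one_le_mul_of_one_le_of_one_le
    (one_le_mul_of_one_le_of_one_le hC0 hC0) (Real.one_le_exp (by norm_num))
  set T : ℕ := A + κ + ∑ i, c i with hT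
  have hmain := circle2 (p := p) (d := (n + n) * A) (κ := κ) (K := κ0 * T) c hκ0
    (C := C0 ^ T * C1 ^ A * B ^ ((n + n) * A)) (a := a + 2)
    (one_le_mul_of_one_le_of_one_le (one_le_mul_of_one_le_of_one_le (one_le_pow₀ hC0)
      (one_le_pow₀ hC1)) (one_le_pow₀ hB1)) (by linarith) hg hg0
    (P := fun z => G none z ^ A) ((hG none).pow A)
    (pow_ne_zero _ (hG0 none 0 (by simpa using ha0.le))) ?_ ?_
  rotate_left
  · -- orders
    intro z
    by_cases hz : z ∈ Ext a
    · have hzr := hEa hz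
      have hev := (Ext_open a).mem_nhds hz
      have hfin : ∀ i, ∃ n : ℕ, analyticOrderAt (Uf u v F i) z = n := by
        intro i
        have h1 : analyticOrderAt (Uf u v F i) z ≠ ⊤ := by
          intro h0
          obtain ⟨z2, hz2, h2⟩ := hne i
          exact h2 ((hUan i).eqOn_zero_of_preconnected_of_eventuallyEq_zero (Ext_preconn hr0) hzr
            (analyticOrderAt_eq_top.mp h0) hz2)
        obtain ⟨n, hn⟩ := ENat.ne_top_iff_exists.mp h1
        exact ⟨n, hn.symm⟩
      choose ai hai using hfin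
      have hunit : ∀ o, analyticOrderAt (gg o) z = analyticOrderAt (G o) z := by
        intro o
        have e1 : gg o =ᶠ[𝓝 z] H o * G o := by
          filter_upwards [hev] with w hw
          exact hvH o w hw
        rw [analyticOrderAt_congr e1, analyticOrderAt_mul ((hH o).an z hz) ((hG o).analyticAt z),
          ((hH o).an z hz).analyticOrderAt_eq_zero.mpr ((hH o).ne z hz), zero_add]
      have hgi : ∀ i, analyticOrderAt (g i) z = ai i := fun i => by
        rw [← hai i]
        exact (hunit (some i)).symm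
      have h1 : analyticOrderAt (fun z => ∏ i, g i z ^ c i) z = ((∑ i, c i * ai i : ℕ) : ℕ∞) := by
        rw [analyticOrder_prod Finset.univ (fun i z => g i z ^ c i)
          (fun i _ => ((hg i).analyticAt z).fun_pow (c i))]
        push_cast
        refine Finset.sum_congr rfl fun i _ => ?_
        have e : (fun z => g i z ^ c i) = g i ^ c i := rfl
        rw [e, analyticOrderAt_pow ((hg i).analyticAt z), nsmul_eq_mul, hgi i]
      have h2 : ((∑ i, (ai i - 1) : ℕ) : ℕ∞) ≤ analyticOrderAt (G none) z := by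
        rw [← hunit none]
        refine Pf_order_at huv hqn (hF z hzr) (hnz z hzr) (fun i => ai i - 1) ?_ ?_ ?_
        · intro i hi
          have h3 := (hUan i z hzr).analyticOrderAt_eq_zero.2 hi
          rw [hai i] at h3
          have h4 : ai i = 0 := by exact_mod_cast h3
          omega
        · intro i
          have : ((ai i - 1 : ℕ) : ℕ∞) ≤ (ai i : ℕ∞) := by exact_mod_cast Nat.sub_le _ _
          exact this.trans (hai i).ge
        · intro i
          have h3 := ord_deriv (hUan i z hzr)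
          have e2 : deriv (Uf u v F i) =ᶠ[𝓝 z] fun z => evi u v i (dF F z) := by
            filter_upwards [(hF z hzr).ev] with w hw
            exact evi_dl hw i
          rw [analyticOrderAt_congr e2] at h3
          rw [ENat.natCast_sub, Nat.cast_one, tsub_le_iff_right]
          exact (hai i).ge.trans h3
      have h3 : ∑ i, c i * ai i ≤ A * ∑ i, (ai i - 1) := hM z hzr ai hai
      have e3 : (fun z => G none z ^ A) = G none ^ A := rfl
      rw [h1, e3, analyticOrderAt_pow ((hG none).analyticAt z)]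
      calc ((∑ i, c i * ai i : ℕ) : ℕ∞) ≤ ((A * ∑ i, (ai i - 1) : ℕ) : ℕ∞) := by
            exact_mod_cast h3
        _ = A • ((∑ i, (ai i - 1) : ℕ) : ℕ∞) := by rw [nsmul_eq_mul]; push_cast; rfl
        _ ≤ _ := nsmul_le_nsmul_right h2 _
    · have hza : ‖z‖ ≤ a := not_lt.mp hz
      have h1 : analyticOrderAt (fun z => ∏ i, g i z ^ c i) z = 0 := by
        apply AnalyticAt.analyticOrderAt_eq_zero _ |>.mpr
        · exact Finset.prod_ne_zero_iff.mpr fun i _ => pow_ne_zero _ (hG0 _ z hza)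
        · exact Finset.analyticAt_fun_prod _ fun i _ => ((hg i).analyticAt z).fun_pow (c i)
      rw [h1]
      exact bot_le
  · -- the pointwise bound
    intro z ε haz hε hε1 hgood
    have hz1' : 1 ≤ ‖z‖ := by linarith
    have hball : ∀ y ∈ closedBall z ε, a + 1 ≤ ‖y‖ ∧ ‖y - z‖ ≤ 1 := by
      intro y hy
      rw [mem_closedBall, dist_eq_norm] at hy
      refine ⟨?_, hy.trans hε1⟩
      have : ‖z‖ ≤ ‖y‖ + 1 := by
        calc ‖z‖ = ‖y - (y - z)‖ := by congr 1; ring
          _ ≤ ‖y‖ + ‖y - z‖ := norm_sub_le _ _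
          _ ≤ _ := by linarith
      linarith
    have hballE : ∀ y ∈ closedBall z ε, y ∈ Ext a := by
      intro y hy
      have := (hball y hy).1
      change a < ‖y‖
      linarith
    have hzm : z ∈ closedBall z ε := mem_closedBall_self hε.le
    have hzE : z ∈ Ext a := hballE z hzm
    have hUne : ∀ i, ∀ w ∈ closedBall z ε, Uf u v F i w ≠ 0 := fun i w hw => by
      rw [hUg i w (hballE w hw)]
      exact mul_ne_zero ((hH _).ne w (hballE w hw)) (hgood.1 i w hw)
    have hUb : ∀ i j, ∀ w ∈ closedBall z ε,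
        ‖Uf u v F j w / Uf u v F i w‖ ≤ B * ‖Uf u v F j z / Uf u v F i z‖ := by
      intro i j w hw
      obtain ⟨h1, h2⟩ := hball w hw
      have o1 := (hosc (some j) z w haz h2).1
      have o2 := (hosc (some i) z w haz h2).2
      have hb' := hgood.2 i j w hw
      have n1 : 0 < ‖H (some i) w‖ := norm_pos_iff.mpr ((hH _).ne w (hballE w hw))
      have n2 : 0 < ‖H (some i) z‖ := norm_pos_iff.mpr ((hH _).ne z hzE)
      have q1 : ‖Uf u v F j w / Uf u v F i w‖ = ‖H (some j) w / H (some i) w‖ * ‖g j w / g i w‖ := by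
        rw [hUg i w (hballE w hw), hUg j w (hballE w hw), ← norm_mul]
        exact congrArg norm (mul_div_mul_comm _ _ _ _)
      have q2 : ‖Uf u v F j z / Uf u v F i z‖ = ‖H (some j) z / H (some i) z‖ * ‖g j z / g i z‖ := by
        rw [hUg i z hzE, hUg j z hzE, ← norm_mul]
        exact congrArg norm (mul_div_mul_comm _ _ _ _)
      rw [q1, q2]
      have h3 : ‖H (some j) w / H (some i) w‖ ≤ C0 * C0 * ‖H (some j) z / H (some i) z‖ := by
        rw [norm_div, norm_div, ← mul_div_assoc, div_le_div_iff₀ n1 n2]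
        calc ‖H (some j) w‖ * ‖H (some i) z‖ ≤ (C0 * ‖H (some j) z‖) * (C0 * ‖H (some i) w‖) :=
              mul_le_mul o1 o2 (norm_nonneg _) (by positivity)
          _ = _ := by ring
      calc ‖H (some j) w / H (some i) w‖ * ‖g j w / g i w‖
          ≤ (C0 * C0 * ‖H (some j) z / H (some i) z‖) * (Real.exp 1 * ‖g j z / g i z‖) :=
            mul_le_mul h3 hb' (norm_nonneg _) (by positivity)
        _ = B * (‖H (some j) z / H (some i) z‖ * ‖g j z / g i z‖) := by rw [hB]; ring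
    have hp := hpt F z ε B hε hε1 hB1 (fun w hw => hF w (hEa (hballE w hw))) hUne hUb
    have hsp : 0 < sup (Uf u v F) z := sup_pos (hUne 0 z hzm)
    have hp2 := real_pow_ineq2 (norm_nonneg (P z)) hsp (by linarith : (0 : ℝ) ≤ C1)
      (by positivity : (0 : ℝ) ≤ B / ε) hcA hκ (fun i => norm_nonneg (Uf u v F i z))
      (fun i => le_sup (Uf u v F) z i) hp
    set Z : ℝ := C0 * ‖z‖ ^ κ0 with hZ
    have hZ0 : 0 ≤ Z := by positivity
    have hlow : ∀ o, ‖G o z‖ ≤ Z * ‖gg o z‖ := by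
      intro o
      have h1 := (hbd o z (by linarith) hz1').2
      rw [hvH o z hzE, norm_mul]
      calc ‖G o z‖ = 1 * ‖G o z‖ := (one_mul _).symm
        _ ≤ (C0 * ‖z‖ ^ κ0 * ‖H o z‖) * ‖G o z‖ := mul_le_mul_of_nonneg_right h1 (norm_nonneg _)
        _ = _ := by rw [hZ]; ring
    have hup : ∀ i, ‖Uf u v F i z‖ ≤ Z * ‖g i z‖ := by
      intro i
      have h1 := (hbd (some i) z (by linarith) hz1').1
      rw [hUg i z hzE, norm_mul]
      exact mul_le_mul_of_nonneg_right h1 (norm_nonneg _)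
    have hsup : sup g z ≤ Z * sup (Uf u v F) z := by
      obtain ⟨i, hi⟩ := sup_attained g z
      rw [hi]
      exact (hlow (some i)).trans (mul_le_mul_of_nonneg_left (le_sup (Uf u v F) z i) hZ0)
    have hsg : 0 ≤ sup g z := (norm_nonneg (g 0 z)).trans (le_sup g z 0)
    rw [norm_pow]
    have h7 : ∏ i, ‖Uf u v F i z‖ ^ c i ≤ Z ^ (∑ i, c i) * ∏ i, ‖g i z‖ ^ c i := by
      rw [← Finset.prod_pow_eq_pow_sum, ← Finset.prod_mul_distrib]
      refine Finset.prod_le_prod (fun i _ => by positivity) fun i _ => ?_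
      rw [← mul_pow]
      exact pow_le_pow_left₀ (norm_nonneg _) (hup i) _
    have hXpos : 0 ≤ C1 ^ A * (B / ε) ^ ((n + n) * A) := by positivity
    calc ‖G none z‖ ^ A * sup g z ^ κ
        ≤ (Z * ‖P z‖) ^ A * (Z * sup (Uf u v F) z) ^ κ :=
          mul_le_mul (pow_le_pow_left₀ (norm_nonneg _) (hlow none) _)
            (pow_le_pow_left₀ hsg hsup _) (by positivity) (by positivity)
      _ = Z ^ (A + κ) * (‖P z‖ ^ A * sup (Uf u v F) z ^ κ) := by
          rw [mul_pow, mul_pow, pow_add]; ring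
      _ ≤ Z ^ (A + κ) * (C1 ^ A * (B / ε) ^ ((n + n) * A) * ∏ i, ‖Uf u v F i z‖ ^ c i) :=
          mul_le_mul_of_nonneg_left hp2 (by positivity)
      _ ≤ Z ^ (A + κ) * (C1 ^ A * (B / ε) ^ ((n + n) * A) *
            (Z ^ (∑ i, c i) * ∏ i, ‖g i z‖ ^ c i)) :=
          mul_le_mul_of_nonneg_left (mul_le_mul_of_nonneg_left h7 hXpos) (by positivity)
      _ = C0 ^ T * C1 ^ A * B ^ ((n + n) * A) * ‖z‖ ^ (κ0 * T) * (1 / ε) ^ ((n + n) * A)
            * ∏ i, ‖g i z‖ ^ c i := by
          have e1 : (B / ε) ^ ((n + n) * A) = B ^ ((n + n) * A) * (1 / ε) ^ ((n + n) * A) := by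
            rw [← mul_pow]
            congr 1
            ring
          have e2 : Z ^ (A + κ) * Z ^ (∑ i, c i) = C0 ^ T * ‖z‖ ^ (κ0 * T) := by
            rw [← pow_add, hZ, mul_pow, ← pow_mul]
          rw [e1]
          calc _ = (Z ^ (A + κ) * Z ^ (∑ i, c i)) * (C1 ^ A * (B ^ ((n + n) * A)
                * (1 / ε) ^ ((n + n) * A)) * ∏ i, ‖g i z‖ ^ c i) := by ring
            _ = _ := by rw [e2]; ring
  · obtain ⟨Λ, K1, K2, hBase, hK2, hgr⟩ := log_growth2 hg hg0 (by linarith : (1 : ℝ) ≤ a + 2) hmain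
    obtain ⟨R, hR, R0, hRe⟩ := quot_rational hBase hK2 (by linarith : (1 : ℝ) ≤ a + 2) hgr j
    refine ⟨fun z => (H (some j) z / H (some 0) z) * R z, ?_, max R0 a, ?_⟩
    · apply MeromorphicAt.fun_mul _ hR
      exact (unit_mero ha0 (k _) (hq _)).fun_div (unit_mero ha0 (k _) (hq _))
    · intro z hz
      have hz1 : R0 < ‖z‖ := lt_of_le_of_lt (le_max_left _ _) hz
      have hzE : z ∈ Ext a := lt_of_le_of_lt (le_max_right _ _) hz
      rw [hUg j z hzE, hUg 0 z hzE, hRe z hz1]
      have := (hH (some 0)).ne z hzE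
      field_simp


end Pool.Agent.Y190.AN
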