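import Pool.Agent.Y216.EcC
import Pool.Agent.W601.PH.Ext

/-!
The resultant of a curve in the space of polynomials and its derivative: local statements.
-/

set_option autoImplicit false

namespace Pool.Agent.Y190.AN

open Matrix Module Filter Metric Real Set Topology Polynomial
open Pool.Agent.H159R3.NV Pool.Agent.W602.NC Pool.Agent.W602.TL Pool.Agent.W601.SM
  Pool.Agent.W601.PH Pool.Agent.Y216

variable {n p : ℕ} {u v : Fin (p + 1) → ℂ}

theorem evi_an {F : ℂ → Fin (n + 1) → ℂ} {z : ℂ} (hF : AnA F z) (i : Fin (p + 1)) :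
    AnalyticAt ℂ (fun w => evi u v i (F w)) z := by
  simp only [evi_eq]
  exact Finset.analyticAt_fun_sum _ fun l _ => analyticAt_const.fun_mul (hF l)

theorem evi_dl {F : ℂ → Fin (n + 1) → ℂ} {z : ℂ} (hF : AnA F z) (i : Fin (p + 1)) :
    deriv (fun w => evi u v i (F w)) z = evi u v i (dF F z) := by
  simp only [evi_eq]
  rw [deriv_fun_sum fun l _ => ((hF l).differentiableAt.const_mul _)]
  exact Finset.sum_congr rfl fun l _ => deriv_const_mul _ (hF l).differentiableAt

theorem coeff_pol_an {F : ℂ → Fin (n + 1) → ℂ} {z : ℂ} (hF : AnA F z) (i : ℕ) :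
    AnalyticAt ℂ (fun z => (pol (F z)).coeff i) z := by
  by_cases hi : i < n + 1
  · have h : (fun z => (pol (F z)).coeff i) = fun z => F z ⟨i, hi⟩ :=
      funext fun z => coeff_pol_lt _ hi
    rw [h]
    exact hF _
  · have h : (fun z => (pol (F z)).coeff i) = fun _ => 0 :=
      funext fun z => coeff_pol_ge _ (by omega)
    rw [h]
    exact analyticAt_const

theorem Rs_an {F G : ℂ → Fin (n + 1) → ℂ} {z : ℂ} (hF : AnA F z) (hG : AnA G z) :
    AnalyticAt ℂ (fun z => Rs (F z) (G z)) z := by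
  unfold Rs resultant
  refine det_an _ fun i j => ?_
  induction j using Fin.addCases with
  | left j =>
    simp only [sylvester, Matrix.of_apply, Fin.addCases_left]
    split_ifs
    · exact coeff_pol_an hG _
    · exact analyticAt_const
  | right j =>
    simp only [sylvester, Matrix.of_apply, Fin.addCases_right]
    split_ifs
    · exact coeff_pol_an hF _
    · exact analyticAt_const

theorem Pf_an {F : ℂ → Fin (n + 1) → ℂ} {z : ℂ} (hF : AnA F z) : AnalyticAt ℂ (Pf F) z :=
  Rs_an hF hF.dF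

/-- the order of vanishing -/
theorem Pf_order_at (huv : ∀ i j, i ≠ j → u i * v j ≠ u j * v i) (hq : n + n ≤ p + 1)
    {F : ℂ → Fin (n + 1) → ℂ} {z : ℂ} (hF : AnA F z) (hnz : F z ≠ 0) (o : Fin (p + 1) → ℕ)
    (h0 : ∀ i, evi u v i (F z) ≠ 0 → o i = 0)
    (h1 : ∀ i, (o i : ℕ∞) ≤ analyticOrderAt (fun z => evi u v i (F z)) z)
    (h2 : ∀ i, (o i : ℕ∞) ≤ analyticOrderAt (fun z => evi u v i (dF F z)) z) :
    ((∑ i, o i : ℕ) : ℕ∞) ≤ analyticOrderAt (Pf F) z := by
  classical
  obtain ⟨J, hJ⟩ : ∃ J : Finset (Fin (p + 1)), J = Finset.univ.filter fun i =>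
    evi u v i (F z) = 0 := ⟨_, rfl⟩
  have hJc : J.card ≤ n := by
    by_contra hcon
    push Not at hcon
    obtain ⟨T, hTJ, hTc⟩ := Finset.exists_subset_card_eq (s := J) (n := n + 1) hcon
    refine hnz (evi_zero huv (T.orderEmbOfFin hTc).injective fun r => ?_)
    have h3 := hTJ (T.orderEmbOfFin_mem hTc r)
    rw [hJ, Finset.mem_filter] at h3
    exact h3.2
  obtain ⟨σ, hσ, hσJ⟩ := exists_enum J (m := n + n) (by omega) hq
  obtain ⟨w, hw⟩ : ∃ w, w = (Wm u v σ).det := ⟨_, rfl⟩
  have hw0 : w ≠ 0 := by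
    rw [hw]
    exact Wm_ne huv hσ
  have e1 : (fun _ => w) * Pf F = fun z => (Mm u v σ (F z) (dF F z)).det := by
    funext x
    rw [Pi.mul_apply, hw]
    exact Wm_det u v σ (F x) (dF F x)
  have e2 : analyticOrderAt (fun _ : ℂ => w) z = 0 :=
    analyticAt_const.analyticOrderAt_eq_zero.mpr hw0
  have e3 : analyticOrderAt (Pf F) z
      = analyticOrderAt (fun z => (Mm u v σ (F z) (dF F z)).det) z := by
    rw [← e1, analyticOrderAt_mul analyticAt_const (Pf_an hF), e2, zero_add]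
  have hs : ∑ r, o (σ r) = ∑ i, o i := by
    have h9 : ∑ r, o (σ r) = ∑ i ∈ Finset.univ.map ⟨σ, hσ⟩, o i := by
      rw [Finset.sum_map]
      rfl
    rw [h9]
    refine Finset.sum_subset (Finset.subset_univ _) fun i _ hi => h0 i fun h => hi ?_
    obtain ⟨r, hr⟩ := hσJ i (by rw [hJ, Finset.mem_filter]; exact ⟨Finset.mem_univ _, h⟩)
    exact Finset.mem_map.2 ⟨r, Finset.mem_univ _, hr⟩
  rw [e3, ← hs]
  refine le_order_det _ z (fun r => o (σ r)) (fun r c => ?_) fun r c => ?_
  · induction c using Fin.addCases with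
    | left j =>
      simp only [Mm, Matrix.of_apply, Fin.addCases_left]
      exact analyticAt_const.fun_mul (evi_an (u := u) (v := v) hF.dF (σ r))
    | right j =>
      simp only [Mm, Matrix.of_apply, Fin.addCases_right]
      exact analyticAt_const.fun_mul (evi_an (u := u) (v := v) hF (σ r))
  · induction c using Fin.addCases with
    | left j =>
      simp only [Mm, Matrix.of_apply, Fin.addCases_left]
      have e : (fun w => v (σ r) ^ (j : ℕ) * u (σ r) ^ (n - 1 - j) *
          bev (u (σ r)) (v (σ r)) (dF F w)) = (fun _ => v (σ r) ^ (j : ℕ) *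
          u (σ r) ^ (n - 1 - j)) * fun w => evi u v (σ r) (dF F w) := rfl
      rw [e, analyticOrderAt_mul analyticAt_const (evi_an hF.dF (σ r))]
      exact (h2 _).trans le_add_self
    | right j =>
      simp only [Mm, Matrix.of_apply, Fin.addCases_right]
      have e : (fun w => v (σ r) ^ (j : ℕ) * u (σ r) ^ (n - 1 - j) *
          bev (u (σ r)) (v (σ r)) (F w)) = (fun _ => v (σ r) ^ (j : ℕ) *
          u (σ r) ^ (n - 1 - j)) * fun w => evi u v (σ r) (F w) := rfl
      rw [e, analyticOrderAt_mul analyticAt_const (evi_an hF (σ r))]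
      exact (h1 _).trans le_add_self

/-- the pointwise bound -/
theorem Pf_point_at (huv : ∀ i j, i ≠ j → u i * v j ≠ u j * v i) (hq : n + n ≤ p + 1) :
    ∃ C : ℝ, 1 ≤ C ∧ ∀ (F : ℂ → Fin (n + 1) → ℂ) (z : ℂ) (ε B : ℝ),
      0 < ε → ε ≤ 1 → 1 ≤ B → (∀ w ∈ closedBall z ε, AnA F w) →
      (∀ i, ∀ w ∈ closedBall z ε, Uf u v F i w ≠ 0) →
      (∀ i j, ∀ w ∈ closedBall z ε,
        ‖Uf u v F j w / Uf u v F i w‖ ≤ B * ‖Uf u v F j z / Uf u v F i z‖) →
      ‖Pf F z‖ * sup (Uf u v F) z ^ (p + 1)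
        ≤ C * (B / ε) ^ (n + n) * sup (Uf u v F) z ^ (n + n) * ∏ i, ‖Uf u v F i z‖ := by
  obtain ⟨C, hC1, hC⟩ := Rs_bound huv hq
  refine ⟨C, hC1, ?_⟩
  intro F z ε B hε hε1 hB hF hne hb
  have hzz : z ∈ closedBall z ε := mem_closedBall_self hε.le
  obtain ⟨i0, hi0⟩ := sup_attained (Uf u v F) z
  have hU0 : Uf u v F i0 z ≠ 0 := hne i0 z hzz
  set t : ℂ := -(deriv (Uf u v F i0) z / Uf u v F i0 z) with ht
  have hE : 1 ≤ B / ε := by
    rw [le_div_iff₀ hε]
    linarith
  have h := hC (F z) (dF F z + t • F z) (sup (Uf u v F) z) (B / ε)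
    (sup_pos (hne 0 z hzz)) hE (fun i => le_sup (Uf u v F) z i) ⟨i0, hi0.symm⟩ (by
      intro i
      have h1 := wr_local (f := Uf u v F i0) (g := Uf u v F i) hε
        (fun w hw => evi_an (hF w hw) i0) (fun w hw => evi_an (hF w hw) i) (hne i0) (hb i0 i)
      have h2 : evi u v i (dF F z + t • F z)
          = (Uf u v F i0 z * deriv (Uf u v F i) z - deriv (Uf u v F i0) z * Uf u v F i z) /
            Uf u v F i0 z := by
        have h3 : evi u v i (dF F z) = deriv (Uf u v F i) z := (evi_dl (hF z hzz) i).symm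
        have h4 : evi u v i (F z) = Uf u v F i z := rfl
        rw [evi_add, evi_smul, h3, h4, ht]
        field_simp
        ring
      have hp : 0 < ‖Uf u v F i0 z‖ := norm_pos_iff.mpr hU0
      rw [h2, norm_div, div_le_iff₀ hp]
      refine h1.trans (le_of_eq ?_)
      change B / ε * (‖evi u v i0 (F z)‖ * ‖evi u v i (F z)‖) =
        B / ε * ‖evi u v i (F z)‖ * ‖evi u v i0 (F z)‖
      ring)
  rw [Rs_shift] at h
  exact h

end Pool.Agent.Y190.AN
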