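import Pool.Agent.Y190.AN.Pow
import Pool.Agent.Y190.BV.Sub

/-!
The structure of the points over the field of meromorphic functions near infinity.
-/

set_option autoImplicit false

open Filter Topology Set Metric Polynomial

namespace Pool.Agent.Y190.AN

open FF Pool.Agent.W603.BP Pool.Agent.W601.PH Pool.Agent.Y216 Pool.Agent.Y190.BV
  Pool.Agent.W603.LV Pool.Agent.W602.GT

theorem alg_mono {k K : Type} [Field k] [Field K] [Algebra k K] {E M : IntermediateField k K}
    (h : E ≤ M) {t : K} (ht : IsAlgebraic E t) : IsAlgebraic M t := by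
  let _ : Algebra E M := (IntermediateField.inclusion h).toRingHom.toAlgebra
  have : IsScalarTower E M K := IsScalarTower.of_algebraMap_eq fun x => rfl
  exact ht.extendScalars (IntermediateField.inclusion h).toRingHom.injective

variable {r0 : ℝ} {hr0 : 0 < r0}

/-- the ratios of the powers of the coordinates -/
theorem ratio_mem {m N : ℕ} (hm : 1 ≤ m) {a : Fin (N + 1) → ℂ}
    {y : Fin (N + 1) → MK (exD r0 hr0)} {u : MK (exD r0 hr0)} (hu : u ≠ 0)
    (H' : (Minf r0 hr0)[X]) {i j : Fin (N + 1)}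
    (hi : y i ^ m = (C u * H'.map (algebraMap (Minf r0 hr0) (MK (exD r0 hr0)))).eval
      (algebraMap ℂ (MK (exD r0 hr0)) (a i)))
    (hj : y j ^ m = (C u * H'.map (algebraMap (Minf r0 hr0) (MK (exD r0 hr0)))).eval
      (algebraMap ℂ (MK (exD r0 hr0)) (a j))) : y i / y j ∈ Minf r0 hr0 := by
  have hev : ∀ c : ℂ, (H'.map (algebraMap (Minf r0 hr0) (MK (exD r0 hr0)))).eval
      (algebraMap ℂ (MK (exD r0 hr0)) c) ∈ Minf r0 hr0 := by
    intro c
    have h1 : (H'.map (algebraMap (Minf r0 hr0) (MK (exD r0 hr0)))).eval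
        (algebraMap ℂ (MK (exD r0 hr0)) c) = algebraMap (Minf r0 hr0) (MK (exD r0 hr0))
          (H'.eval (algebraMap ℂ (Minf r0 hr0) c)) := by
      rw [IsScalarTower.algebraMap_apply ℂ (Minf r0 hr0) (MK (exD r0 hr0)),
        Polynomial.eval_map_algebraMap, Polynomial.aeval_algebraMap_apply,
        Polynomial.coe_aeval_eq_eval]
    rw [h1]
    exact SetLike.coe_mem _
  apply Minf_closed
  have h2 : (y i / y j) ^ m ∈ Minf r0 hr0 := by
    rw [div_pow, hi, hj, Polynomial.eval_mul, Polynomial.eval_mul, Polynomial.eval_C,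
      Polynomial.eval_C, mul_div_mul_left _ _ hu]
    exact (Minf r0 hr0).div_mem (hev _) (hev _)
  exact IsAlgebraic.of_pow (by omega) (isAlgebraic_algebraMap (⟨_, h2⟩ : Minf r0 hr0))

/-- **Theorem B.** -/
theorem struct_an {n m N : ℕ} (hm : 2 ≤ m) (hnm : n < 2 * m) (hN : 4 * n < N + 1)
    {a : Fin (N + 1) → ℂ} (ha : Function.Injective a) {y : Fin (N + 1) → MK (exD r0 hr0)}
    (hy0 : y ≠ 0) (hy : ∀ l : Rel a n, val y (buchi a n m l) = 0)
    (hne : ∃ i j, y j ≠ 0 ∧ y i / y j ∉ Minf r0 hr0) :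
    ∃ (t : MK (exD r0 hr0)) (z : Fin (N + 1) → MK (exD r0 hr0)),
      (∀ i, y i = (algebraMap ℂ (MK (exD r0 hr0)) (a i) - t) * z i) ∧
      (∃ i j, i ≠ j ∧ z i ≠ 0 ∧ z j ≠ 0) ∧ Transcendental (coords ℂ z) t := by
  classical
  have hn : n ≤ N := by omega
  obtain ⟨i1, j1, hj1, hij1⟩ := hne
  set H := intp a hn (fun i => y i ^ m) with hHd
  have hev : ∀ i, H.eval (algebraMap ℂ (MK (exD r0 hr0)) (a i)) = y i ^ m :=
    intp_eval ha hn m hy
  have hH : H ≠ 0 := by
    intro h0
    apply hy0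
    funext i
    have h1 := hev i
    rw [h0, Polynomial.eval_zero] at h1
    exact eq_zero_of_pow_eq_zero h1.symm
  have hHdeg : H.natDegree ≤ n := intp_natDegree ha hn _
  obtain ⟨p, hp, hpH⟩ : ∃ p : (MK (exD r0 hr0))[X], Irreducible p ∧ p ^ m ∣ H := by
    by_contra hcon
    push Not at hcon
    obtain ⟨u, H', hu, hHu⟩ := pow_Minf hm hN a ha H hH hHdeg (fun i => ⟨y i, (hev i).symm⟩) hcon
    apply hij1
    exact ratio_mem (m := m) (by omega) hu H' (by rw [← hHu, hev]) (by rw [← hHu, hev])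
  -- the polynomial `p` is linear
  have hp1 : p.natDegree = 1 := by
    have h1 := Polynomial.natDegree_le_of_dvd hpH hH
    rw [Polynomial.natDegree_pow] at h1
    have h2 := hp.natDegree_pos
    by_contra hne
    have h3 : 2 ≤ p.natDegree := by omega
    have h4 : m * 2 ≤ m * p.natDegree := Nat.mul_le_mul_left m h3
    omega
  obtain ⟨t, ht⟩ : ∃ t, p.eval t = 0 := by
    have h1 := Polynomial.exists_root_of_degree_eq_one (p := p)
      ((Polynomial.degree_eq_iff_natDegree_eq_of_pos one_pos).2 hp1)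
    obtain ⟨t, ht⟩ := h1
    exact ⟨t, ht⟩
  obtain ⟨H', hH'⟩ : (Polynomial.X - Polynomial.C t) ^ m ∣ H :=
    (pow_dvd_pow_of_dvd (Polynomial.dvd_iff_isRoot.2 ht) m).trans hpH
  have hH'0 : H' ≠ 0 := by
    rintro rfl
    rw [mul_zero] at hH'
    exact hH hH'
  have hdeg : H'.natDegree + m ≤ n := by
    have h4 := congrArg Polynomial.natDegree hH'
    rw [Polynomial.natDegree_mul (pow_ne_zero _ (Polynomial.X_sub_C_ne_zero t)) hH'0,
      Polynomial.natDegree_pow, Polynomial.natDegree_X_sub_C, mul_one] at h4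
    omega
  have hev' : ∀ i, (algebraMap ℂ (MK (exD r0 hr0)) (a i) - t) ^ m *
      H'.eval (algebraMap ℂ (MK (exD r0 hr0)) (a i)) = y i ^ m := by
    intro i
    rw [← hev i, hH', Polynomial.eval_mul, Polynomial.eval_pow, Polynomial.eval_sub,
      Polynomial.eval_X, Polynomial.eval_C]
  -- the polynomial `H'`
  obtain ⟨u, H'', hu, hHu⟩ : ∃ (u : MK (exD r0 hr0)) (H'' : (Minf r0 hr0)[X]), u ≠ 0 ∧
      H' = C u * H''.map (algebraMap (Minf r0 hr0) (MK (exD r0 hr0))) := by
    obtain ⟨N', rfl⟩ : ∃ N', N = N' + 1 := ⟨N - 1, by omega⟩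
    obtain ⟨i0, hi0⟩ : ∃ i0 : Fin (N' + 1 + 1), ∀ i, i ≠ i0 →
        algebraMap ℂ (MK (exD r0 hr0)) (a i) ≠ t := by
      by_cases h : ∃ i0, algebraMap ℂ (MK (exD r0 hr0)) (a i0) = t
      · obtain ⟨i0, hi0⟩ := h
        refine ⟨i0, fun i hi h1 => hi (ha ((algebraMap ℂ (MK (exD r0 hr0))).injective ?_))⟩
        rw [h1, hi0]
      · push Not at h
        exact ⟨0, fun i _ => h i⟩
    refine pow_Minf (n := n - m) (m := m) (N := N') hm (by omega)
      (fun j => a (i0.succAbove j)) (fun x y hxy => Fin.succAbove_right_injective (ha hxy)) H'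
      hH'0 (by omega) ?_ ?_
    · intro j
      have h1 : algebraMap ℂ (MK (exD r0 hr0)) (a (i0.succAbove j)) - t ≠ 0 :=
        sub_ne_zero.2 (hi0 _ (Fin.succAbove_ne i0 j))
      refine ⟨y (i0.succAbove j) / (algebraMap ℂ (MK (exD r0 hr0)) (a (i0.succAbove j)) - t), ?_⟩
      rw [div_pow, ← hev', mul_div_assoc, mul_div_cancel₀ _ (pow_ne_zero _ h1)]
    · intro p' hp' hdvd
      have h1 := Polynomial.natDegree_le_of_dvd hdvd hH'0
      rw [Polynomial.natDegree_pow] at h1
      have h2 := hp'.natDegree_pos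
      have h4 : m * 1 ≤ m * p'.natDegree := Nat.mul_le_mul_left m h2
      omega
  -- `t` is transcendental
  have htM : t ∉ Minf r0 hr0 := by
    intro htM
    apply hij1
    have hHt : H = C u * ((X - C (⟨t, htM⟩ : Minf r0 hr0)) ^ m * H'').map
        (algebraMap (Minf r0 hr0) (MK (exD r0 hr0))) := by
      rw [hH', hHu, Polynomial.map_mul, Polynomial.map_pow, Polynomial.map_sub, Polynomial.map_X,
        Polynomial.map_C]
      change (X - C t) ^ m * _ = C u * ((X - C t) ^ m * _)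
      ring
    exact ratio_mem (m := m) (by omega) hu _ (by rw [← hHt, hev]) (by rw [← hHt, hev])
  have hat : ∀ i, algebraMap ℂ (MK (exD r0 hr0)) (a i) - t ≠ 0 := by
    intro i h
    apply htM
    rw [← sub_eq_zero.1 h]
    exact (Minf r0 hr0).algebraMap_mem _
  set z : Fin (N + 1) → MK (exD r0 hr0) :=
    fun i => y i / (algebraMap ℂ (MK (exD r0 hr0)) (a i) - t) with hz
  have hyz : ∀ i, y i = (algebraMap ℂ (MK (exD r0 hr0)) (a i) - t) * z i := by
    intro i
    simp only [hz]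
    have := hat i
    field_simp
  have hzm : ∀ i, H'.eval (algebraMap ℂ (MK (exD r0 hr0)) (a i)) = z i ^ m := by
    intro i
    simp only [hz]
    rw [div_pow, ← hev', mul_div_assoc, mul_div_cancel₀ _ (pow_ne_zero _ (hat i))]
  have hz0 : ∃ i j, i ≠ j ∧ z i ≠ 0 ∧ z j ≠ 0 := by
    obtain ⟨i, j, hij, hi, hj⟩ := two_nonzero ha (d := H'.natDegree) (by omega) hH'0 le_rfl
    refine ⟨i, j, hij, ?_, ?_⟩
    · intro h0
      rw [hzm, h0, zero_pow (by omega)] at hi
      exact hi rfl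
    · intro h0
      rw [hzm, h0, zero_pow (by omega)] at hj
      exact hj rfl
  have hle : coords ℂ z ≤ Minf r0 hr0 := by
    unfold coords
    rw [IntermediateField.adjoin_le_iff]
    rintro _ ⟨i, j, hj, rfl⟩
    exact ratio_mem (m := m) (by omega) hu H'' (by rw [← hHu, hzm]) (by rw [← hHu, hzm])
  refine ⟨t, z, hyz, hz0, fun htalg => htM ?_⟩
  exact Minf_closed (alg_mono hle htalg)

/-- The forms which vanish on the lines of a closed subset vanish at its points which are not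
meromorphic at infinity. -/
theorem vanish_an {n m N : ℕ} (hm : 2 ≤ m) (hnm : n < 2 * m) (hN : 4 * n < N + 1)
    {a : Fin (N + 1) → ℂ} (ha : Function.Injective a) {ι : Type}
    {F : ι → MvPolynomial (Fin (N + 1)) ℂ} (hF : ∀ e, IsForm (F e))
    (hsub : Cone F ⊆ Cone (buchi a n m)) {y : Fin (N + 1) → MK (exD r0 hr0)} (hy0 : y ≠ 0)
    (hy : ∀ e, val y (F e) = 0) (hne : ∃ i j, y j ≠ 0 ∧ y i / y j ∉ Minf r0 hr0)
    {G : MvPolynomial (Fin (N + 1)) ℂ}
    (hG : ∀ b b', Line F b b' → ∀ c c' : ℂ, val (c • b + c' • b') G = 0) : val y G = 0 := by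
  have hinfK : Infinite (MK (exD r0 hr0)) := by
    have : CharZero (MK (exD r0 hr0)) :=
      charZero_of_injective_algebraMap (algebraMap ℂ (MK (exD r0 hr0))).injective
    infer_instance
  obtain ⟨t, z, hyz, ⟨i, j, hij, hi, hj⟩, htr⟩ :=
    struct_an hm hnm hN ha hy0 (sub_ext hsub hy0 hy) hne
  refine mem_closure y z ⟨i, j, ?_⟩ (fun c c' e => line_vanish hyz hi htr (hF e) (hy e) c c')
    hG
  rw [hyz i, hyz j]
  have e : (algebraMap ℂ (MK (exD r0 hr0)) (a i) - t) * z i * z j -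
      (algebraMap ℂ (MK (exD r0 hr0)) (a j) - t) * z j * z i =
      algebraMap ℂ (MK (exD r0 hr0)) (a i - a j) * (z i * z j) := by
    rw [map_sub]; ring
  rw [e]
  exact mul_ne_zero ((_root_.map_ne_zero _).2 (sub_ne_zero.2 fun h => hij (ha h)))
    (mul_ne_zero hi hj)

end Pool.Agent.Y190.AN
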