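import Pool.Agent.W601.PH.Ext

/-!
The theorem of Weierstrass: entire functions with given zeros.
-/

set_option autoImplicit false

open Filter Metric Set Topology

namespace Pool.Agent.Y190.AN

theorem approx {g : ℂ → ℂ} {R r ε : ℝ} (hg : DifferentiableOn ℂ g (ball 0 R)) (hr : 0 ≤ r)
    (hrR : r < R) (hε : 0 < ε) :
    ∃ q : ℂ → ℂ, Differentiable ℂ q ∧ ∀ z ∈ ball (0 : ℂ) r, ‖g z - q z‖ ≤ ε := by
  obtain ⟨R', h1, h2⟩ := exists_between hrR
  have hR'0 : 0 < R' := lt_of_le_of_lt hr h1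
  let R1 : NNReal := ⟨R', hR'0.le⟩
  let r1 : NNReal := ⟨r, hr⟩
  have h3 : HasFPowerSeriesOnBall g (cauchyPowerSeries g 0 R1) 0 R1 :=
    DifferentiableOn.hasFPowerSeriesOnBall (R := R1)
      (hg.mono (closedBall_subset_ball h2)) (NNReal.coe_pos.1 hR'0)
  have h4 := h3.tendstoUniformlyOn (r' := r1) (by
    rw [ENNReal.coe_lt_coe]
    exact h1)
  rw [Metric.tendstoUniformlyOn_iff] at h4
  obtain ⟨n, hn⟩ := (h4 ε hε).exists
  refine ⟨fun y => (cauchyPowerSeries g 0 R1).partialSum n y, ?_, fun z hz => ?_⟩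
  · unfold FormalMultilinearSeries.partialSum
    refine Differentiable.fun_sum fun i _ => ?_
    have e : (fun y : ℂ => (cauchyPowerSeries g 0 (R1 : ℝ)) i fun _ => y) =
        fun y => y ^ i • (cauchyPowerSeries g 0 (R1 : ℝ)).coeff i := by
      funext y
      exact FormalMultilinearSeries.apply_eq_pow_smul_coeff
    rw [e]
    exact (differentiable_id.pow i).smul_const _
  · have h5 := hn z hz
    rw [dist_eq_norm, zero_add] at h5
    exact h5.le

/-- the order of a finite product of powers of linear factors -/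
theorem order_lin (s : Finset ℂ) (c : ℂ → ℂ) (hc : ∀ a ∈ s, c a ≠ 0) (μ : ℂ → ℕ) (w : ℂ) :
    analyticOrderAt (fun z => ∏ a ∈ s, (c a * (z - a)) ^ μ a) w =
      ((if w ∈ s then μ w else 0 : ℕ) : ℕ∞) := by
  classical
  have han : ∀ a : ℂ, AnalyticAt ℂ (fun z => c a * (z - a)) w := fun a =>
    analyticAt_const.fun_mul (analyticAt_id.fun_sub analyticAt_const)
  rw [Pool.Agent.W601.PH.analyticOrder_prod s (fun a z => (c a * (z - a)) ^ μ a)
    (fun a _ => (han a).fun_pow _)]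
  have h1 : ∀ a ∈ s, analyticOrderAt (fun z => (c a * (z - a)) ^ μ a) w =
      if a = w then (μ w : ℕ∞) else 0 := by
    intro a ha
    have e : (fun z => (c a * (z - a)) ^ μ a) = (fun z => c a * (z - a)) ^ μ a := rfl
    rw [e, analyticOrderAt_pow (han a)]
    split_ifs with h
    · subst h
      have h2 : analyticOrderAt (fun z => c a * (z - a)) a = 1 := by
        have h3 : ((1 : ℕ) : ℕ∞) = 1 := rfl
        rw [← h3, (han a).analyticOrderAt_eq_natCast]
        refine ⟨fun _ => c a, analyticAt_const, hc a ha, ?_⟩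
        filter_upwards with z
        rw [pow_one, smul_eq_mul, mul_comm]
      rw [h2]
      simp
    · have h2 : analyticOrderAt (fun z => c a * (z - a)) w = 0 := by
        rw [(han a).analyticOrderAt_eq_zero]
        exact mul_ne_zero (hc a ha) (sub_ne_zero.2 (Ne.symm h))
      rw [h2]
      simp
  rw [Finset.sum_congr rfl h1, Finset.sum_ite_eq' s w]
  split_ifs <;> simp

theorem weier (μ : ℂ → ℕ) (hμ : ∀ r : ℝ, {z : ℂ | ‖z‖ ≤ r ∧ μ z ≠ 0}.Finite) :
    ∃ h : ℂ → ℂ, Differentiable ℂ h ∧ ∀ z, analyticOrderAt h z = μ z := by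
  classical
  let Z : ℕ → Finset ℂ := fun k => (hμ k).toFinset
  have hZ : ∀ k z, z ∈ Z k ↔ ‖z‖ ≤ k ∧ μ z ≠ 0 := fun k z => by
    simp only [Z, Set.Finite.mem_toFinset, Set.mem_ofPred_eq]
  let A : ℕ → Finset ℂ := fun k => Z (k + 1) \ (if k = 0 then ∅ else Z k)
  have hA0 : ∀ z, z ∈ A 0 ↔ ‖z‖ ≤ 1 ∧ μ z ≠ 0 := fun z => by
    simp only [A, if_true, Finset.sdiff_empty, zero_add]
    rw [hZ, Nat.cast_one]
  have hA : ∀ k, k ≠ 0 → ∀ z, z ∈ A k ↔ (k : ℝ) < ‖z‖ ∧ ‖z‖ ≤ k + 1 ∧ μ z ≠ 0 := by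
    intro k hk z
    simp only [A, if_neg hk]
    rw [Finset.mem_sdiff, hZ, hZ, Nat.cast_add, Nat.cast_one]
    constructor
    · rintro ⟨⟨h1, h2⟩, h3⟩
      refine ⟨?_, h1, h2⟩
      by_contra hcon
      exact h3 ⟨not_lt.1 hcon, h2⟩
    · rintro ⟨h1, h2, h3⟩
      exact ⟨⟨h2, h3⟩, fun h => absurd h.1 (not_le.2 h1)⟩
  let c : ℕ → ℂ → ℂ := fun k a => if k = 0 then 1 else -a⁻¹
  have hane : ∀ k, k ≠ 0 → ∀ a ∈ A k, a ≠ 0 := by
    intro k hk a ha h0
    rw [hA k hk, h0, norm_zero] at ha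
    exact absurd ha.1 (not_lt.2 (Nat.cast_nonneg k))
  have hc : ∀ k, ∀ a ∈ A k, c k a ≠ 0 := by
    intro k a ha
    simp only [c]
    split_ifs with hk
    · exact one_ne_zero
    · exact neg_ne_zero.2 (inv_ne_zero (hane k hk a ha))
  let P : ℕ → ℂ → ℂ := fun k z => ∏ a ∈ A k, (c k a * (z - a)) ^ μ a
  let g : ℕ → ℂ → ℂ := fun k z => ∑ a ∈ A k, μ a * Complex.log (1 - z / a)
  have hslit : ∀ k, k ≠ 0 → ∀ a ∈ A k, ∀ z ∈ ball (0 : ℂ) k, 1 - z / a ∈ Complex.slitPlane := by
    intro k hk a ha z hz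
    have h1 := ((hA k hk a).1 ha).1
    rw [mem_ball_zero_iff] at hz
    have h2 : ‖z / a‖ < 1 := by
      rw [norm_div, div_lt_one (lt_of_le_of_lt (Nat.cast_nonneg k) h1)]
      exact hz.trans h1
    left
    rw [Complex.sub_re, Complex.one_re]
    have h3 := Complex.re_le_norm (z / a)
    linarith
  have hgd : ∀ k, k ≠ 0 → DifferentiableOn ℂ (g k) (ball 0 k) := by
    intro k hk
    refine DifferentiableOn.fun_sum fun a ha => ?_
    refine DifferentiableOn.const_mul ?_ _
    intro z hz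
    apply DifferentiableAt.differentiableWithinAt
    refine DifferentiableAt.clog ?_ (hslit k hk a ha z hz)
    exact (differentiableAt_const _).fun_sub (differentiableAt_id.div_const _)
  have hge : ∀ k : ℕ, k ≠ 0 → ∀ z ∈ ball (0 : ℂ) k, Complex.exp (g k z) = P k z := by
    intro k hk z hz
    simp only [g, P]
    rw [Complex.exp_sum]
    refine Finset.prod_congr rfl fun a ha => ?_
    rw [Complex.exp_nat_mul, Complex.exp_log (Complex.slitPlane_ne_zero (hslit k hk a ha z hz))]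
    congr 1
    simp only [c, if_neg hk]
    have := hane k hk a ha
    field_simp
    ring
  have hq : ∀ k : ℕ, ∃ q : ℂ → ℂ, Differentiable ℂ q ∧
      (k = 0 → ∀ z, q z = 0) ∧ (k ≠ 0 → ∀ z ∈ ball (0 : ℂ) (k - 1), ‖g k z - q z‖ ≤ (1 / 2) ^ k) := by
    intro k
    rcases Nat.eq_zero_or_pos k with rfl | hk
    · exact ⟨fun _ => 0, differentiable_const _, fun _ _ => rfl, fun h => absurd rfl h⟩
    · have h1 : (1 : ℝ) ≤ k := by exact_mod_cast hk
      obtain ⟨q, h2, h3⟩ := approx (hgd k hk.ne') (r := k - 1) (by linarith) (by linarith)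
        (show (0 : ℝ) < (1 / 2) ^ k by positivity)
      exact ⟨q, h2, fun h => absurd h hk.ne', fun _ => h3⟩
  choose q hq1 hq0 hq2 using hq
  let f : ℕ → ℂ → ℂ := fun k z => P k z * Complex.exp (-q k z)
  let d : ℕ → ℂ → ℂ := fun k z => g k z - q k z
  have hPd : ∀ k, Differentiable ℂ (P k) := by
    intro k
    refine Differentiable.fun_finsetProd fun a _ => ?_
    exact ((differentiable_id.sub_const a).const_mul (c k a)).pow _
  have hfd : ∀ k, Differentiable ℂ (f k) := fun k => (hPd k).mul (hq1 k).neg.cexp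
  let S : ℕ → ℂ → ℂ := fun K z => ∑' j : ℕ, d (K + j) z
  let H : ℕ → ℂ → ℂ := fun K z => (∏ k ∈ Finset.range K, f k z) * Complex.exp (S K z)
  have hsub : ∀ (K j : ℕ) (z : ℂ), z ∈ ball (0 : ℂ) ((K : ℝ) - 1) →
      z ∈ ball (0 : ℂ) (((K + j : ℕ) : ℝ) - 1) := by
    intro K j z hz
    rw [mem_ball_zero_iff] at hz ⊢
    push_cast
    have : (0 : ℝ) ≤ j := Nat.cast_nonneg j
    linarith
  have hbd : ∀ (K : ℕ), K ≠ 0 → ∀ (j : ℕ) (z : ℂ), z ∈ ball (0 : ℂ) ((K : ℝ) - 1) →
      ‖d (K + j) z‖ ≤ (1 / 2) ^ j := by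
    intro K hK j z hz
    refine (hq2 (K + j) (by omega) z (hsub K j z hz)).trans ?_
    exact pow_le_pow_of_le_one (by norm_num) (by norm_num) (by omega)
  have hsum : ∀ (K : ℕ), K ≠ 0 → ∀ z ∈ ball (0 : ℂ) ((K : ℝ) - 1),
      Summable fun j => d (K + j) z := fun K hK z hz =>
    Summable.of_norm_bounded (summable_geometric_of_lt_one (by norm_num) (by norm_num))
      fun j => hbd K hK j z hz
  have hSd : ∀ (K : ℕ), K ≠ 0 → DifferentiableOn ℂ (S K) (ball 0 ((K : ℝ) - 1)) := by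
    intro K hK
    refine Complex.differentiableOn_tsum_of_summable_norm
      (u := fun j : ℕ => ((1 : ℝ) / 2) ^ j)
      (summable_geometric_of_lt_one (by norm_num) (by norm_num)) (fun j => ?_) isOpen_ball
      (fun j z hz => hbd K hK j z hz)
    refine ((hgd (K + j) (by omega)).mono fun z hz => ?_).sub (hq1 _).differentiableOn
    have h1 := hsub K j z hz
    rw [mem_ball_zero_iff] at h1 ⊢
    linarith
  have hstep : ∀ (K : ℕ), K ≠ 0 → ∀ z ∈ ball (0 : ℂ) ((K : ℝ) - 1), H (K + 1) z = H K z := by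
    intro K hK z hz
    simp only [H]
    rw [Finset.prod_range_succ, mul_assoc]
    congr 1
    have h1 : S K z = d K z + S (K + 1) z := by
      simp only [S]
      rw [(hsum K hK z hz).tsum_eq_zero_add, add_zero]
      congr 1
      refine tsum_congr fun j => ?_
      congr 1
      omega
    have hzK : z ∈ ball (0 : ℂ) (K : ℝ) := by
      rw [mem_ball_zero_iff] at hz ⊢
      linarith
    rw [h1, Complex.exp_add]
    simp only [f, d]
    rw [← hge K hK z hzK, ← Complex.exp_add (g K z), sub_eq_add_neg]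
  have hstep2 : ∀ (K j : ℕ), K ≠ 0 → ∀ z ∈ ball (0 : ℂ) ((K : ℝ) - 1), H (K + j) z = H K z := by
    intro K j hK z hz
    induction j with
    | zero => rfl
    | succ j ih => rw [← ih, ← add_assoc, hstep (K + j) (by omega) z (hsub K j z hz)]
  let h : ℂ → ℂ := fun z => H (⌈‖z‖⌉₊ + 2) z
  have hloc : ∀ (K : ℕ), K ≠ 0 → ∀ z ∈ ball (0 : ℂ) ((K : ℝ) - 1), h z = H K z := by
    intro K hK z hz
    have h1 : z ∈ ball (0 : ℂ) (((⌈‖z‖⌉₊ + 2 : ℕ) : ℝ) - 1) := by
      rw [mem_ball_zero_iff]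
      push_cast
      have := Nat.le_ceil ‖z‖
      linarith
    have h2 := hstep2 K (⌈‖z‖⌉₊ + 2) hK z hz
    have h3 := hstep2 (⌈‖z‖⌉₊ + 2) K (by omega) z h1
    change H (⌈‖z‖⌉₊ + 2) z = H K z
    rw [← h2, ← h3, add_comm]
  have hHan : ∀ (K : ℕ), K ≠ 0 → ∀ z ∈ ball (0 : ℂ) ((K : ℝ) - 1), AnalyticAt ℂ (S K) z :=
    fun K hK z hz => (hSd K hK).analyticAt (isOpen_ball.mem_nhds hz)
  refine ⟨h, ?_, ?_⟩
  · intro z
    set K : ℕ := ⌈‖z‖⌉₊ + 2 with hK
    have hz : z ∈ ball (0 : ℂ) ((K : ℝ) - 1) := by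
      rw [mem_ball_zero_iff, hK]
      push_cast
      have := Nat.le_ceil ‖z‖
      linarith
    have h1 : h =ᶠ[𝓝 z] H K := by
      filter_upwards [isOpen_ball.mem_nhds hz] with w hw
      exact hloc K (by omega) w hw
    rw [h1.differentiableAt_iff]
    have h2 : DifferentiableAt ℂ (fun z => ∏ k ∈ Finset.range K, f k z) z :=
      DifferentiableAt.fun_finsetProd fun k _ => (hfd k) z
    exact h2.mul (hHan K (by omega) z hz).differentiableAt.cexp
  · intro z
    set K : ℕ := ⌈‖z‖⌉₊ + 2 with hK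
    have hz : z ∈ ball (0 : ℂ) ((K : ℝ) - 1) := by
      rw [mem_ball_zero_iff, hK]
      push_cast
      have := Nat.le_ceil ‖z‖
      linarith
    have h1 : h =ᶠ[𝓝 z] (fun z => ∏ k ∈ Finset.range K, f k z) * fun z => Complex.exp (S K z) := by
      filter_upwards [isOpen_ball.mem_nhds hz] with w hw
      exact hloc K (by omega) w hw
    have h2 : AnalyticAt ℂ (fun z => Complex.exp (S K z)) z := (hHan K (by omega) z hz).cexp
    have h3 : AnalyticAt ℂ (fun z => ∏ k ∈ Finset.range K, f k z) z :=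
      Finset.analyticAt_fun_prod _ fun k _ => (hfd k).analyticAt z
    rw [analyticOrderAt_congr h1, analyticOrderAt_mul h3 h2,
      h2.analyticOrderAt_eq_zero.2 (Complex.exp_ne_zero _), add_zero,
      Pool.Agent.W601.PH.analyticOrder_prod (Finset.range K) f fun k _ => (hfd k).analyticAt z]
    have h4 : ∀ k ∈ Finset.range K, analyticOrderAt (f k) z =
        if z ∈ A k then (μ z : ℕ∞) else 0 := by
      intro k _
      have e : f k = P k * fun z => Complex.exp (-q k z) := rfl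
      have h5 : AnalyticAt ℂ (fun z => Complex.exp (-q k z)) z := ((hq1 k).neg.cexp).analyticAt z
      rw [e, analyticOrderAt_mul ((hPd k).analyticAt z) h5,
        h5.analyticOrderAt_eq_zero.2 (Complex.exp_ne_zero _), add_zero]
      rw [order_lin (A k) (c k) (hc k) μ z]
      split_ifs <;> simp
    rw [Finset.sum_congr rfl h4]
    by_cases hm : μ z = 0
    · rw [hm]
      simp
    · have h6 : ∃ k0 ∈ Finset.range K, z ∈ A k0 ∧ ∀ k ∈ Finset.range K, k ≠ k0 → z ∉ A k := by
        by_cases hz1 : ‖z‖ ≤ 1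
        · refine ⟨0, by rw [Finset.mem_range]; omega, (hA0 z).2 ⟨hz1, hm⟩, ?_⟩
          intro k _ hk hzk
          have h7 := ((hA k hk z).1 hzk).1
          have h8 : (1 : ℝ) ≤ k := by exact_mod_cast Nat.one_le_iff_ne_zero.2 hk
          linarith
        · push Not at hz1
          have h9 : 1 < ⌈‖z‖⌉₊ := by
            rw [Nat.lt_ceil]
            simpa using hz1
          refine ⟨⌈‖z‖⌉₊ - 1, by rw [Finset.mem_range]; omega, ?_, ?_⟩
          · rw [hA _ (by omega)]
            refine ⟨?_, ?_, hm⟩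
            · have h10 : ⌈‖z‖⌉₊ - 1 < ⌈‖z‖⌉₊ := by omega
              exact Nat.lt_ceil.1 h10
            · rw [Nat.cast_sub (by omega)]
              have := Nat.le_ceil ‖z‖
              push_cast
              linarith
          · intro k _ hk hzk
            rcases Nat.eq_zero_or_pos k with rfl | hk0
            · exact absurd ((hA0 z).1 hzk).1 (not_le.2 hz1)
            · have h11 := (hA k hk0.ne' z).1 hzk
              have h12 : k < ⌈‖z‖⌉₊ := Nat.lt_ceil.2 h11.1
              have h13 : ⌈‖z‖⌉₊ ≤ k + 1 := by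
                rw [Nat.ceil_le]
                push_cast
                exact h11.2.1
              omega
      obtain ⟨k0, hk0, hzk0, hother⟩ := h6
      rw [Finset.sum_eq_single_of_mem k0 hk0 fun k hk hne => if_neg (hother k hk hne), if_pos hzk0]

end Pool.Agent.Y190.AN
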